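import Pool.Agent.Lib.CR5.SpecC

/-!
# CR5, block C: test functions determine functions
-/

open MeasureTheory Set Filter Topology
open scoped ENNReal ComplexConjugate

noncomputable section

namespace Pool.Agent.CR5.C

private theorem AE_ae (f g : E5 → ℂ) (hf : LocallyIntegrable f volume)
    (hg : LocallyIntegrable g volume)
    (h : ∀ ψ, Tst ψ → ∫ x, f x * ψ x = ∫ x, g x * ψ x) : f =ᵐ[volume] g := by
  refine ae_eq_of_integral_contDiff_smul_eq hf hg fun φ hφ hc => ?_
  have hT : Tst (fun x => (φ x : ℂ)) :=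
    ⟨Sm.ofReal hφ, hc.comp_left (g := fun r : ℝ => (r : ℂ)) Complex.ofReal_zero⟩
  have e : ∀ u : E5 → ℂ, ∫ x, φ x • u x = ∫ x, u x * (φ x : ℂ) := fun u =>
    integral_congr_ae (Eventually.of_forall fun x => by
      show φ x • u x = u x * (φ x : ℂ)
      rw [Complex.real_smul, mul_comm])
  rw [e, e]
  exact h _ hT

theorem pAE : S_AE := by
  refine ⟨AE_ae, fun f g hf hg h => ?_⟩
  exact (Continuous.ae_eq_iff_eq volume hf hg).1
    (AE_ae f g hf.locallyIntegrable hg.locallyIntegrable h)

end Pool.Agent.CR5.C
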