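import Pool.Agent.Lib.CR5.SpecC

/-!
# CR5, block C: abstract smooth orbits
-/

open MeasureTheory Set Filter Topology
open scoped ENNReal ComplexConjugate

noncomputable section

namespace Pool.Agent.CR5.C

private theorem AbsOrb_inv (h y : E5) : lh (lh y (-h)) h = y := by
  rw [← lh_lh]
  have : lh (-h) h = 0 := by simp [lh, om_neg_left, om_self]
  rw [this, lh_zero_right]

private theorem AbsOrb_kap (h y : E5) : lh y (-h) = y + -h + ((2 : ℝ) • omL h) y • e5 4 := by
  have e : om y (-h) = om h y := by simp [om]; ring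
  show -h + y + (2 * om y (-h)) • e5 4 = _
  rw [e, ContinuousLinearMap.smul_apply, omL_apply, smul_eq_mul, add_comm (-h) y]

private theorem AbsOrb_fd (h x : E5) : HasFDerivAt (fun y => lh y (-h))
    (ContinuousLinearMap.id ℝ E5 + ((2 : ℝ) • omL h).smulRight (e5 4)) x := by
  have e : (fun y => lh y (-h)) = fun y => y + -h + ((2 : ℝ) • omL h) y • e5 4 :=
    funext fun y => AbsOrb_kap h y
  rw [e]
  have h1 : HasFDerivAt (fun x : E5 => x + -h) (ContinuousLinearMap.id ℝ E5) x :=
    (hasFDerivAt_id x).add_const _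
  have h2 : HasFDerivAt (fun x : E5 => ((2 : ℝ) • omL h) x • e5 4)
      (((2 : ℝ) • omL h).smulRight (e5 4)) x :=
    (((2 : ℝ) • omL h).smulRight (e5 4)).hasFDerivAt
  exact h1.add h2

private theorem AbsOrb_om (h v : E5) : 2 * om h v = -∑ i, v i * zco i h := by
  simp only [Fin.sum_univ_five, zco_eq]
  simp [om, e5_apply]
  ring

theorem pAbsOrb : S_AbsOrb := by
  intro V _ _ τ hτ K R hK hR
  have hd : ∀ f, K f → ∀ h, HasFDerivAt (fun h => τ h (R f))
      (∑ i : Fin 5, (EuclideanSpace.proj i : E5 →L[ℝ] ℝ).smulRight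
        (τ h (R (Zf i f)) - zco i h • τ h (R (Zf 4 f)))) h := by
    intro f hf h
    have e : (fun y => τ y (R f)) = fun y => τ h (τ (lh y (-h)) (R f)) := by
      funext y
      rw [hτ, AbsOrb_inv]
    have k0 : lh h (-h) = 0 := by simp [lh, om_neg_right, om_self]
    have h1 : HasFDerivAt (fun y => τ y (R f))
        (∑ i, (EuclideanSpace.proj i : E5 →L[ℝ] ℝ).smulRight (R (Zf i f))) (lh h (-h)) := by
      rw [k0]; exact hR f hf
    have h2 := h1.comp h (AbsOrb_fd h h)
    have h3 := (τ h).hasFDerivAt.comp h h2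
    rw [e]
    refine HasFDerivAt.congr_fderiv h3 ?_
    ext v
    have pa : ∀ (i : Fin 5) (w : E5), (EuclideanSpace.proj i : E5 →L[ℝ] ℝ) w = w i :=
      fun i w => rfl
    simp only [ContinuousLinearMap.comp_apply, ContinuousLinearMap.sum_apply,
      ContinuousLinearMap.smulRight_apply, map_sum, map_smul, pa]
    have ev : ∀ i : Fin 5, (ContinuousLinearMap.id ℝ E5 +
        ((2 : ℝ) • omL h).smulRight (e5 4)) v i = v i + (2 * om h v) * e5 4 i := by
      intro i
      simp [omL_apply]
    simp only [ev, add_smul, smul_sub, smul_smul, Finset.sum_add_distrib, Finset.sum_sub_distrib]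
    rw [← Finset.sum_smul, sub_eq_add_neg, ← neg_smul, ← AbsOrb_om]
    congr 1
    simp only [Fin.sum_univ_five, e5_apply]
    simp
  have hn : ∀ n : ℕ, ∀ f, K f → ContDiff ℝ n (fun h => τ h (R f)) := by
    intro n
    induction n with
    | zero =>
      intro f hf
      refine contDiff_zero.2 ?_
      exact continuous_iff_continuousAt.2 fun h => (hd f hf h).continuousAt
    | succ n ih =>
      intro f hf
      have := (contDiff_succ_iff_hasFDerivAt (𝕜 := ℝ) (n := n) (f := fun h => τ h (R f))).2
        ⟨_, ?_, hd f hf⟩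
      · exact_mod_cast this
      refine ContDiff.sum fun i _ => ?_
      have h1 := ih (Zf i f) (hK i f hf)
      have h2 := ih (Zf 4 f) (hK 4 f hf)
      have h3 : ContDiff ℝ (n : WithTop ℕ∞) (zco i) := (contDiff_zco i).of_le (by
        exact_mod_cast le_top)
      exact ContDiff.smulRight contDiff_const (h1.sub (h3.smul h2))
  intro f hf
  exact contDiff_infty.2 fun n => hn n f hf

end Pool.Agent.CR5.C
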