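import Pool.Agent.Lib.CR5.SpecC

/-!
# CR5, block C: coercivity on test pairs (helper57)
-/

set_option autoImplicit false

open MeasureTheory Set Filter Topology
open scoped ENNReal ComplexConjugate

noncomputable section

namespace Pool.Agent.CR5.C

private theorem Coe_zc_le {x : E5} (hx : ‖x‖ ≤ 1) (j : Fin 2) : ‖zc j x‖ ≤ 1 := by
  have h1 : ‖x‖ ^ 2 = ∑ i : Fin 5, ‖x i‖ ^ 2 := EuclideanSpace.norm_sq_eq x
  have h2 : ‖x‖ ^ 2 ≤ 1 := by nlinarith [norm_nonneg x]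
  rw [h1] at h2
  simp only [Fin.sum_univ_five, Real.norm_eq_abs, sq_abs] at h2
  have h3 : ∀ u v : ℝ, ‖(u : ℂ) + Complex.I * (v : ℂ)‖ ^ 2 = u ^ 2 + v ^ 2 := by
    intro u v
    rw [← Complex.normSq_eq_norm_sq, Complex.normSq_apply]
    simp
    ring
  have h4 : ‖zc j x‖ ^ 2 ≤ 1 := by
    unfold zc
    split_ifs
    · rw [h3]
      nlinarith [sq_nonneg (x 2), sq_nonneg (x 3), sq_nonneg (x 4)]
    · rw [h3]
      nlinarith [sq_nonneg (x 0), sq_nonneg (x 1), sq_nonneg (x 4)]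
  exact (sq_le_one_iff₀ (norm_nonneg _)).1 h4

private theorem Coe_a02 {x : E5} (hx : ‖x‖ ≤ 1) (j : Fin 2) : ‖a0 j 2 x‖ ≤ 1 := by
  have h : a0 j 2 x = -(Complex.I * zc j x) := by simp [a0]
  rw [h, norm_neg, norm_mul, Complex.norm_I, one_mul]
  exact Coe_zc_le hx j

private theorem Coe_L0 (j : Fin 2) (f : E5 → ℂ) (x : E5) :
    L a0 j f x = db j.castSucc f x + a0 j 2 x * pd 4 f x := by
  have h0 : a0 j 0 x = 0 := by simp [a0]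
  have h1 : a0 j 1 x = 0 := by simp [a0]
  unfold L
  rw [Fin.sum_univ_three, h0, h1, dz_two]
  ring

private theorem Coe_Lb0 (j : Fin 2) (f : E5 → ℂ) (x : E5) :
    Lb a0 j f x = dz j.castSucc f x + conj (a0 j 2 x) * pd 4 f x := by
  have h0 : a0 j 0 x = 0 := by simp [a0]
  have h1 : a0 j 1 x = 0 := by simp [a0]
  unfold Lb
  rw [Fin.sum_univ_three, h0, h1, db_two]
  simp

private theorem Coe_dz {x : E5} (hx : ‖x‖ ≤ 1) (f : E5 → ℂ) (j : Fin 2) :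
    ‖dz j.castSucc f x‖ ≤ ‖Lb a0 j f x‖ + ‖pd 4 f x‖ := by
  have h : dz j.castSucc f x = Lb a0 j f x - conj (a0 j 2 x) * pd 4 f x := by
    rw [Coe_Lb0]; ring
  rw [h]
  refine (norm_sub_le _ _).trans ?_
  rw [norm_mul, RCLike.norm_conj]
  have := mul_le_mul_of_nonneg_right (Coe_a02 hx j) (norm_nonneg (pd 4 f x))
  linarith

private theorem Coe_db {x : E5} (hx : ‖x‖ ≤ 1) (f : E5 → ℂ) (j : Fin 2) :
    ‖db j.castSucc f x‖ ≤ ‖L a0 j f x‖ + ‖pd 4 f x‖ := by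
  have h : db j.castSucc f x = L a0 j f x - a0 j 2 x * pd 4 f x := by
    rw [Coe_L0]; ring
  rw [h]
  refine (norm_sub_le _ _).trans ?_
  rw [norm_mul]
  have := mul_le_mul_of_nonneg_right (Coe_a02 hx j) (norm_nonneg (pd 4 f x))
  linarith

private theorem Coe_dif {a : Str} {m : ℕ} {ε : ℝ} (h : Near a m ε) (h0 : 0 ≤ ε) (j : Fin 2)
    (l : Fin 3) (x : E5) : ‖a j l x - a0 j l x‖ ≤ ε := by
  have h1 : ‖a j l x - a0 j l x‖ ^ 2 ≤ ε ^ 2 := h.bd j l 0 (Nat.zero_le _) x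
  exact (sq_le_sq₀ (norm_nonneg _) h0).1 h1

private theorem Coe_L {a : Str} {m : ℕ} {ε : ℝ} (h : Near a m ε) (h0 : 0 ≤ ε) (f : E5 → ℂ)
    (j : Fin 2) (x : E5) : ‖L a0 j f x‖ ≤ ‖L a j f x‖
      + ε * (‖Lb a0 0 f x‖ + ‖Lb a0 1 f x‖ + 3 * ‖pd 4 f x‖) := by
  rcases le_or_gt 1 ‖x‖ with hx | hx
  · have e : L a0 j f x = L a j f x := by
      unfold L
      simp only [h.out j _ x hx]
    rw [e]
    have : 0 ≤ ε * (‖Lb a0 0 f x‖ + ‖Lb a0 1 f x‖ + 3 * ‖pd 4 f x‖) := by positivity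
    linarith
  · have e : L a0 j f x = L a j f x - ∑ l, (a j l x - a0 j l x) * dz l f x := by
      unfold L
      rw [Fin.sum_univ_three, Fin.sum_univ_three, Fin.sum_univ_three]
      ring
    have d0 : ‖dz 0 f x‖ ≤ ‖Lb a0 0 f x‖ + ‖pd 4 f x‖ := Coe_dz hx.le f 0
    have d1 : ‖dz 1 f x‖ ≤ ‖Lb a0 1 f x‖ + ‖pd 4 f x‖ := Coe_dz hx.le f 1
    have d2 : ‖dz 2 f x‖ ≤ ‖pd 4 f x‖ := by rw [dz_two]
    have s : ‖∑ l, (a j l x - a0 j l x) * dz l f x‖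
        ≤ ε * (‖Lb a0 0 f x‖ + ‖Lb a0 1 f x‖ + 3 * ‖pd 4 f x‖) := by
      refine (norm_sum_le _ _).trans ?_
      rw [Fin.sum_univ_three, norm_mul, norm_mul, norm_mul]
      have t : ∀ (l : Fin 3) (B : ℝ), ‖dz l f x‖ ≤ B →
          ‖a j l x - a0 j l x‖ * ‖dz l f x‖ ≤ ε * B := fun l B hB =>
        mul_le_mul (Coe_dif h h0 j l x) hB (norm_nonneg _) h0
      have := t 0 _ d0
      have := t 1 _ d1
      have := t 2 _ d2
      linarith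
    rw [e]
    exact (norm_sub_le _ _).trans (by linarith)

private theorem Coe_Lb {a : Str} {m : ℕ} {ε : ℝ} (h : Near a m ε) (h0 : 0 ≤ ε) (f : E5 → ℂ)
    (j : Fin 2) (x : E5) : ‖Lb a0 j f x‖ ≤ ‖Lb a j f x‖
      + ε * (‖L a0 0 f x‖ + ‖L a0 1 f x‖ + 3 * ‖pd 4 f x‖) := by
  rcases le_or_gt 1 ‖x‖ with hx | hx
  · have e : Lb a0 j f x = Lb a j f x := by
      unfold Lb
      simp only [h.out j _ x hx]
    rw [e]
    have : 0 ≤ ε * (‖L a0 0 f x‖ + ‖L a0 1 f x‖ + 3 * ‖pd 4 f x‖) := by positivity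
    linarith
  · have e : Lb a0 j f x = Lb a j f x - ∑ l, conj (a j l x - a0 j l x) * db l f x := by
      unfold Lb
      rw [Fin.sum_univ_three, Fin.sum_univ_three, Fin.sum_univ_three]
      simp only [map_sub]
      ring
    have d0 : ‖db 0 f x‖ ≤ ‖L a0 0 f x‖ + ‖pd 4 f x‖ := Coe_db hx.le f 0
    have d1 : ‖db 1 f x‖ ≤ ‖L a0 1 f x‖ + ‖pd 4 f x‖ := Coe_db hx.le f 1
    have d2 : ‖db 2 f x‖ ≤ ‖pd 4 f x‖ := by rw [db_two]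
    have s : ‖∑ l, conj (a j l x - a0 j l x) * db l f x‖
        ≤ ε * (‖L a0 0 f x‖ + ‖L a0 1 f x‖ + 3 * ‖pd 4 f x‖) := by
      refine (norm_sum_le _ _).trans ?_
      rw [Fin.sum_univ_three, norm_mul, norm_mul, norm_mul, RCLike.norm_conj, RCLike.norm_conj,
        RCLike.norm_conj]
      have t : ∀ (l : Fin 3) (B : ℝ), ‖db l f x‖ ≤ B →
          ‖a j l x - a0 j l x‖ * ‖db l f x‖ ≤ ε * B := fun l B hB =>
        mul_le_mul (Coe_dif h h0 j l x) hB (norm_nonneg _) h0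
      have := t 0 _ d0
      have := t 1 _ d1
      have := t 2 _ d2
      linarith
    rw [e]
    exact (norm_sub_le _ _).trans (by linarith)

private theorem Coe_alg {p q r s P Q R S t : ℝ} (hp : 0 ≤ p) (hq : 0 ≤ q) (hr : 0 ≤ r)
    (hs : 0 ≤ s)
    (h1 : p ≤ P + 1 / 8 * (r + s + 3 * t)) (h2 : q ≤ Q + 1 / 8 * (r + s + 3 * t))
    (h3 : r ≤ R + 1 / 8 * (p + q + 3 * t)) (h4 : s ≤ S + 1 / 8 * (p + q + 3 * t)) :
    p ^ 2 + q ^ 2 + r ^ 2 + s ^ 2 ≤ 16 * (P ^ 2 + R ^ 2 + (Q ^ 2 + S ^ 2)) + 8 * t ^ 2 := by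
  have hsum : p + q + r + s ≤ 4 / 3 * (P + Q + R + S) + 2 * t := by linarith
  have hnn : 0 ≤ p + q + r + s := by linarith
  have e1 : p ^ 2 + q ^ 2 + r ^ 2 + s ^ 2 ≤ (p + q + r + s) ^ 2 := by
    nlinarith [mul_nonneg hp hq, mul_nonneg hp hr, mul_nonneg hp hs, mul_nonneg hq hr,
      mul_nonneg hq hs, mul_nonneg hr hs]
  have e2 : (p + q + r + s) ^ 2 ≤ (4 / 3 * (P + Q + R + S) + 2 * t) ^ 2 :=
    pow_le_pow_left₀ hnn hsum 2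
  have e3 : (4 / 3 * (P + Q + R + S) + 2 * t) ^ 2
      ≤ 2 * ((4 / 3 * (P + Q + R + S)) ^ 2 + (2 * t) ^ 2) := by
    nlinarith [sq_nonneg (4 / 3 * (P + Q + R + S) - 2 * t)]
  have e4 : (P + Q + R + S) ^ 2 ≤ 4 * (P ^ 2 + R ^ 2 + (Q ^ 2 + S ^ 2)) := by
    nlinarith [sq_nonneg (P - Q), sq_nonneg (P - R), sq_nonneg (P - S), sq_nonneg (Q - R),
      sq_nonneg (Q - S), sq_nonneg (R - S)]
  nlinarith [sq_nonneg P, sq_nonneg Q, sq_nonneg R, sq_nonneg S]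

private theorem Coe_pt {a : Str} {m : ℕ} {ε : ℝ} (h : Near a m ε) (h0 : 0 ≤ ε) (h1 : ε ≤ 1 / 8)
    (f : E5 → ℂ) (x : E5) : (‖L a0 0 f x‖ ^ 2 + ‖L a0 1 f x‖ ^ 2 + ‖Lb a0 0 f x‖ ^ 2
      + ‖Lb a0 1 f x‖ ^ 2) ≤ 16 * gr a f x + 8 * ‖pd 4 f x‖ ^ 2 := by
  have hg : gr a f x = ‖L a 0 f x‖ ^ 2 + ‖Lb a 0 f x‖ ^ 2
      + (‖L a 1 f x‖ ^ 2 + ‖Lb a 1 f x‖ ^ 2) := by
    unfold gr
    rw [Fin.sum_univ_two]
  have mono : ∀ T : ℝ, 0 ≤ T → ε * T ≤ 1 / 8 * T := fun T hT =>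
    mul_le_mul_of_nonneg_right h1 hT
  have b1 : 0 ≤ ‖Lb a0 0 f x‖ + ‖Lb a0 1 f x‖ + 3 * ‖pd 4 f x‖ := by positivity
  have b2 : 0 ≤ ‖L a0 0 f x‖ + ‖L a0 1 f x‖ + 3 * ‖pd 4 f x‖ := by positivity
  rw [hg]
  refine Coe_alg (norm_nonneg _) (norm_nonneg _) (norm_nonneg _) (norm_nonneg _)
    ((Coe_L h h0 f 0 x).trans ?_) ((Coe_L h h0 f 1 x).trans ?_)
    ((Coe_Lb h h0 f 0 x).trans ?_) ((Coe_Lb h h0 f 1 x).trans ?_)
  · linarith [mono _ b1]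
  · linarith [mono _ b1]
  · linarith [mono _ b2]
  · linarith [mono _ b2]

private theorem Coe_sqi {f : E5 → ℂ} (hf : Tst f) : Integrable fun x => ‖f x‖ ^ 2 :=
  (memLp_two_iff_integrable_sq_norm hf.memLp.1).1 hf.memLp

private theorem Coe_gri {a : Str} (ha : SmS a) {f : E5 → ℂ} (hf : Tst f) :
    Integrable (gr a f) := by
  unfold gr
  refine integrable_finsetSum _ fun j _ => ?_
  exact (Coe_sqi (hf.L ha j)).add (Coe_sqi (hf.Lb ha j))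

private theorem Coe_one {a : Str} {m : ℕ} {ε : ℝ} (h : Near a m ε) (h0 : 0 ≤ ε)
    (h1 : ε ≤ 1 / 8) {f : E5 → ℂ} (hf : Tst f) :
    (∑ k : Fin 6, ∫ x, ‖Jf f k x‖ ^ 2)
      ≤ 16 * (∫ x, gr a f x) + 9 * ((∫ x, ‖f x‖ ^ 2) + ∫ x, ‖pd 4 f x‖ ^ 2) := by
  have i1 := Coe_sqi (hf.L smS_a0 0)
  have i2 := Coe_sqi (hf.L smS_a0 1)
  have i3 := Coe_sqi (hf.Lb smS_a0 0)
  have i4 := Coe_sqi (hf.Lb smS_a0 1)
  have i5 := Coe_sqi (hf.pd 4)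
  have ig := Coe_gri h.sm hf
  have s1 : (∫ x, (‖L a0 0 f x‖ ^ 2 + ‖L a0 1 f x‖ ^ 2 + ‖Lb a0 0 f x‖ ^ 2
      + ‖Lb a0 1 f x‖ ^ 2)) ≤ ∫ x, (16 * gr a f x + 8 * ‖pd 4 f x‖ ^ 2) :=
    integral_mono (((i1.add i2).add i3).add i4) ((ig.const_mul 16).add (i5.const_mul 8))
      fun x => Coe_pt h h0 h1 f x
  have i12 : Integrable fun x => ‖L a0 0 f x‖ ^ 2 + ‖L a0 1 f x‖ ^ 2 := i1.add i2
  have i123 : Integrable fun x => ‖L a0 0 f x‖ ^ 2 + ‖L a0 1 f x‖ ^ 2 + ‖Lb a0 0 f x‖ ^ 2 :=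
    i12.add i3
  have g1 : Integrable fun x => 16 * gr a f x := ig.const_mul 16
  have g2 : Integrable fun x => 8 * ‖pd 4 f x‖ ^ 2 := i5.const_mul 8
  rw [integral_add i123 i4, integral_add i12 i3, integral_add i1 i2, integral_add g1 g2,
    integral_const_mul, integral_const_mul] at s1
  have e : (∑ k : Fin 6, ∫ x, ‖Jf f k x‖ ^ 2) = (∫ x, ‖f x‖ ^ 2)
      + ((∫ x, ‖L a0 0 f x‖ ^ 2) + (∫ x, ‖L a0 1 f x‖ ^ 2) + (∫ x, ‖Lb a0 0 f x‖ ^ 2)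
        + (∫ x, ‖Lb a0 1 f x‖ ^ 2)) + ∫ x, ‖pd 4 f x‖ ^ 2 := by
    rw [Fin.sum_univ_six]
    have e0 : Jf f 0 = f := rfl
    have e1 : Jf f 1 = L a0 0 f := rfl
    have e2 : Jf f 2 = L a0 1 f := rfl
    have e3 : Jf f 3 = Lb a0 0 f := rfl
    have e4 : Jf f 4 = Lb a0 1 f := rfl
    have e5 : Jf f 5 = pd 4 f := rfl
    rw [e0, e1, e2, e3, e4, e5]
    ring
  have n0 : 0 ≤ ∫ x, ‖f x‖ ^ 2 := integral_nonneg fun x => sq_nonneg _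
  rw [e]
  linarith

theorem pCoe (h1 : S_Bas) : S_Coe := by
  obtain ⟨ε0, hε0, c0, hc0, hB⟩ := h1
  refine ⟨min ε0 (1 / 8), lt_min hε0 (by norm_num), fun a ha e he _ => ?_⟩
  have hm0 : 0 ≤ min ε0 (1 / 8) := (lt_min hε0 (by norm_num)).le
  have ha0 : Near a 2 ε0 := ⟨ha.sm, ha.out, fun j l i hi x => (ha.bd j l i hi x).trans
    (pow_le_pow_left₀ hm0 (min_le_left _ _) 2)⟩
  refine ⟨min (c0 / 16) (e / 9), lt_min (by positivity) (by positivity), fun w hw => ?_⟩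
  have b := hB a ha0 w hw
  have k0 := Coe_one ha hm0 (min_le_right _ _) (hw 0)
  have k1 := Coe_one ha hm0 (min_le_right _ _) (hw 1)
  rw [Fintype.sum_prod_type, Fin.sum_univ_two, Fin.sum_univ_two]
  set c := min (c0 / 16) (e / 9) with hc
  have c1 : c ≤ c0 / 16 := min_le_left _ _
  have c2 : c ≤ e / 9 := min_le_right _ _
  have cp : 0 < c := lt_min (by positivity) (by positivity)
  have gg : ∀ j, 0 ≤ ∫ x, gr a (w j) x := fun j => integral_nonneg fun x => by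
    unfold gr
    exact Finset.sum_nonneg fun j _ => by positivity
  have nn : ∀ j, 0 ≤ (∫ x, ‖w j x‖ ^ 2) + ∫ x, ‖pd 4 (w j) x‖ ^ 2 := fun j =>
    add_nonneg (integral_nonneg fun x => sq_nonneg _) (integral_nonneg fun x => sq_nonneg _)
  have g0 := gg 0
  have g1 := gg 1
  have n0 := nn 0
  have n1 := nn 1
  generalize (∫ x, gr a (w 0) x) = G0 at *
  generalize (∫ x, gr a (w 1) x) = G1 at *
  generalize ((∫ x, ‖w 0 x‖ ^ 2) + ∫ x, ‖pd 4 (w 0) x‖ ^ 2) = N0 at *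
  generalize ((∫ x, ‖w 1 x‖ ^ 2) + ∫ x, ‖pd 4 (w 1) x‖ ^ 2) = N1 at *
  calc c * ((∑ k : Fin 6, ∫ x, ‖Jf (w 0) k x‖ ^ 2) + ∑ k : Fin 6, ∫ x, ‖Jf (w 1) k x‖ ^ 2)
      ≤ c * ((16 * G0 + 9 * N0) + (16 * G1 + 9 * N1)) :=
        mul_le_mul_of_nonneg_left (add_le_add k0 k1) cp.le
    _ = (c * 16) * (G0 + G1) + (c * 9) * (N0 + N1) := by ring
    _ ≤ c0 * (G0 + G1) + e * (N0 + N1) :=
        add_le_add (mul_le_mul_of_nonneg_right (by linarith) (add_nonneg g0 g1))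
          (mul_le_mul_of_nonneg_right (by linarith) (add_nonneg n0 n1))
    _ ≤ _ := by linarith

end Pool.Agent.CR5.C
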