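import Pool.Agent.Lib.CR5.SpecC

/-!
# CR5, block C: translations commute with the left invariant fields
-/

open MeasureTheory Set Filter Topology
open scoped ENNReal ComplexConjugate

noncomputable section

namespace Pool.Agent.CR5.C

private theorem Com_sm (h : E5) {f : E5 → ℂ} (hf : Sm f) : Sm (fun x => f (lh h x)) :=
  ContDiff.comp hf (contDiff_lh_right h)

private theorem Com_fd (h x : E5) : HasFDerivAt (lh h)
    (ContinuousLinearMap.id ℝ E5 + ((2 : ℝ) • omL h).smulRight (e5 4)) x := by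
  have e : lh h = fun x => x + h + ((2 : ℝ) • omL h) x • e5 4 := by
    funext x
    show x + h + (2 * om h x) • e5 4 = _
    rw [ContinuousLinearMap.smul_apply, omL_apply, smul_eq_mul]
  rw [e]
  have h1 : HasFDerivAt (fun x : E5 => x + h) (ContinuousLinearMap.id ℝ E5) x :=
    (hasFDerivAt_id x).add_const h
  have h2 : HasFDerivAt (fun x : E5 => ((2 : ℝ) • omL h) x • e5 4)
      (((2 : ℝ) • omL h).smulRight (e5 4)) x :=
    (((2 : ℝ) • omL h).smulRight (e5 4)).hasFDerivAt
  exact h1.add h2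

private theorem Com_pd (h : E5) {f : E5 → ℂ} (hf : Sm f) (i : Fin 5) (x : E5) :
    pd i (fun y => f (lh h y)) x
      = pd i f (lh h x) + ((2 * om h (e5 i) : ℝ) : ℂ) * pd 4 f (lh h x) := by
  have h1 : HasFDerivAt (fun y => f (lh h y))
      ((fderiv ℝ f (lh h x)).comp
        (ContinuousLinearMap.id ℝ E5 + ((2 : ℝ) • omL h).smulRight (e5 4))) x :=
    (hf.diffAt (lh h x)).hasFDerivAt.comp x (Com_fd h x)
  unfold pd
  rw [h1.fderiv]
  have e : (ContinuousLinearMap.id ℝ E5 + ((2 : ℝ) • omL h).smulRight (e5 4)) (e5 i)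
      = e5 i + (2 * om h (e5 i)) • e5 4 := by
    simp [omL_apply]
  rw [ContinuousLinearMap.comp_apply, e, map_add, map_smul, Complex.real_smul]

private theorem Com_om (h : E5) : om h (e5 0) = h 1 ∧ om h (e5 1) = -h 0 ∧ om h (e5 2) = h 3 ∧
    om h (e5 3) = -h 2 ∧ om h (e5 4) = 0 := by
  simp [om, e5_apply]

private theorem Com_L (f : E5 → ℂ) (j : Fin 2) (x : E5) :
    L a0 j f x = db j.castSucc f x - Complex.I * zc j x * pd 4 f x := by
  simp only [L, Fin.sum_univ_three, a0, dz_two]
  simp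
  ring

private theorem Com_Lb (f : E5 → ℂ) (j : Fin 2) (x : E5) :
    Lb a0 j f x = dz j.castSucc f x + Complex.I * conj (zc j x) * pd 4 f x := by
  simp only [Lb, Fin.sum_univ_three, a0, db_two]
  simp

private theorem Com_zc0 (h x : E5) : zc 0 (lh h x) = zc 0 x + ((h 0 : ℂ) + Complex.I * (h 1 : ℂ)) := by
  simp only [zc, if_true, lh_ne h x (show (0 : Fin 5) ≠ 4 by decide),
    lh_ne h x (show (1 : Fin 5) ≠ 4 by decide)]
  push_cast
  ring

private theorem Com_zc1 (h x : E5) : zc 1 (lh h x) = zc 1 x + ((h 2 : ℂ) + Complex.I * (h 3 : ℂ)) := by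
  have h1 : ¬ ((1 : Fin 2) = 0) := by decide
  simp only [zc, h1, if_false, lh_ne h x (show (2 : Fin 5) ≠ 4 by decide),
    lh_ne h x (show (3 : Fin 5) ≠ 4 by decide)]
  push_cast
  ring

theorem pCom : S_Com := by
  refine ⟨fun h f hf => ⟨Com_sm h hf, fun k x => ?_⟩, fun h f hf => ⟨Com_sm h hf.sm, ?_⟩⟩
  · obtain ⟨o0, o1, o2, o3, o4⟩ := Com_om h
    have p := fun i => Com_pd h hf i x
    have c0 : (0 : Fin 2).castSucc = (0 : Fin 3) := rfl
    have c1 : (1 : Fin 2).castSucc = (1 : Fin 3) := rfl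
    have h4 : pd 4 (fun y => f (lh h y)) x = pd 4 f (lh h x) := by
      rw [p, o4]; simp
    have hI : Complex.I ^ 2 = -1 := Complex.I_sq
    unfold Jf
    split_ifs with k0 k1 k2 k3 k4
    · rfl
    · rw [Com_L, Com_L, c0, db_zero, db_zero, h4, p 0, p 1, o0, o1, Com_zc0]
      push_cast
      linear_combination ((h 1 : ℂ) * pd 4 f (lh h x)) * hI
    · rw [Com_L, Com_L, c1, db_one, db_one, h4, p 2, p 3, o2, o3, Com_zc1]
      push_cast
      linear_combination ((h 3 : ℂ) * pd 4 f (lh h x)) * hI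
    · rw [Com_Lb, Com_Lb, c0, dz_zero, dz_zero, h4, p 0, p 1, o0, o1, Com_zc0]
      simp only [map_add, map_mul, Complex.conj_I, Complex.conj_ofReal]
      push_cast
      linear_combination ((h 1 : ℂ) * pd 4 f (lh h x)) * hI
    · rw [Com_Lb, Com_Lb, c1, dz_one, dz_one, h4, p 2, p 3, o2, o3, Com_zc1]
      simp only [map_add, map_mul, Complex.conj_I, Complex.conj_ofReal]
      push_cast
      linear_combination ((h 3 : ℂ) * pd 4 f (lh h x)) * hI
    · exact h4
  · have hc : HasCompactSupport f := hf.cs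
    let φ : E5 ≃ₜ E5 :=
      { toFun := lh h
        invFun := lh (-h)
        left_inv := lh_neg_lh h
        right_inv := lh_lh_neg h
        continuous_toFun := continuous_lh h
        continuous_invFun := continuous_lh (-h) }
    exact hc.comp_homeomorph φ

end Pool.Agent.CR5.C
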