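import Pool.Agent.Lib.CR5.SpecC
import Pool.Agent.Lib.CR5.B.Geo

/-!
# CR5, block C: rapid decay of the Fourier transform (helper9)
-/

open MeasureTheory Set Filter Topology
open scoped ENNReal ComplexConjugate FourierTransform

noncomputable section

namespace Pool.Agent.CR5.C

/-- The exponent of the character. -/
def Dec_ph (ξ : E5) : E5 → ℂ := fun x => ∑ k : Fin 5, (((-2 * Real.pi * ξ k : ℝ) : ℂ) * Complex.I) * (x k : ℂ)

/-- The character. -/
def Dec_es (ξ : E5) : E5 → ℂ := fun x => Complex.exp (Dec_ph ξ x)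

theorem Dec_ph_sm (ξ : E5) : Sm (Dec_ph ξ) :=
  Sm.sum _ fun k _ => (Sm.const _).mul (Sm.coord k)

theorem Dec_es_sm (ξ : E5) : Sm (Dec_es ξ) := (Dec_ph_sm ξ).cexp

theorem Dec_pd_es (ξ : E5) (i : Fin 5) (x : E5) :
    pd i (Dec_es ξ) x = Dec_es ξ x * (((-2 * Real.pi * ξ i : ℝ) : ℂ) * Complex.I) := by
  unfold Dec_es
  rw [pd_cexp (Dec_ph_sm ξ)]
  congr 1
  unfold Dec_ph
  rw [pd_sum _ fun k _ => (Sm.const _).mul (Sm.coord k)]
  simp only [pd_const_mul (Sm.coord _), geo_pd_coord, mul_ite, mul_one, mul_zero,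
    Finset.sum_ite_eq, Finset.mem_univ, if_true]

theorem Dec_es_eq (ξ x : E5) :
    Complex.exp (((-2 * Real.pi * inner ℝ x ξ : ℝ) : ℂ) * Complex.I) = Dec_es ξ x := by
  unfold Dec_es Dec_ph
  congr 1
  have h : inner ℝ x ξ = ∑ k : Fin 5, ξ k * x k := by
    rw [PiLp.inner_apply]
    exact Finset.sum_congr rfl fun k _ => by simp
  rw [h]
  push_cast
  rw [Finset.mul_sum, Finset.sum_mul]
  exact Finset.sum_congr rfl fun k _ => by ring

theorem Dec_norm_es (ξ x : E5) : ‖Dec_es ξ x‖ = 1 := by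
  rw [← Dec_es_eq, Complex.norm_exp_ofReal_mul_I]

theorem Dec_four (f : E5 → ℂ) (ξ : E5) : 𝓕 f ξ = ∫ x, Dec_es ξ x * f x := by
  rw [Real.fourier_eq']
  refine integral_congr_ae (Filter.Eventually.of_forall fun x => ?_)
  show Complex.exp (((-2 * Real.pi * inner ℝ x ξ : ℝ) : ℂ) * Complex.I) • f x = Dec_es ξ x * f x
  rw [Dec_es_eq, smul_eq_mul]

theorem Dec_int (u : H2) {ψ : E5 → ℂ} (h : Tst ψ) : Integrable (fun x => u x * ψ x) volume :=
  (Lp.memLp u).integrable_mul h.memLp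

/-- `zco i` as a complex function. -/
def Dec_z (i : Fin 5) : E5 → ℂ := fun x => (zco i x : ℂ)

theorem Dec_z_sm (i : Fin 5) : Sm (Dec_z i) := Sm.ofReal (contDiff_zco i)

theorem Dec_pd4_z (i : Fin 5) (x : E5) : pd 4 (Dec_z i) x = 0 := by
  have key : ∀ (c : ℝ) (m : Fin 5), m ≠ 4 → Dec_z i = (fun y => (c : ℂ) * ((y m : ℝ) : ℂ)) →
      pd 4 (Dec_z i) x = 0 := by
    intro c m hm he
    rw [he, pd_const_mul (Sm.coord m), geo_pd_coord, if_neg (fun h => hm h.symm), mul_zero]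
  fin_cases i
  · exact key (-2) 1 (by decide) (by funext y; simp [Dec_z, zco])
  · exact key 2 0 (by decide) (by funext y; simp [Dec_z, zco])
  · exact key (-2) 3 (by decide) (by funext y; simp [Dec_z, zco])
  · exact key 2 2 (by decide) (by funext y; simp [Dec_z, zco])
  · exact key 0 0 (by decide) (by funext y; simp [Dec_z, zco])

theorem Dec_Zf4 {ψ : E5 → ℂ} (hψ : Sm ψ) (i : Fin 5) (x : E5) :
    Zf 4 (fun y => Dec_z i y * ψ y) x = Dec_z i x * pd 4 ψ x := by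
  have h4 : zco 4 x = 0 := by simp [zco]
  unfold Zf
  rw [pd_mul (Dec_z_sm i) hψ, Dec_pd4_z, h4]
  simp

/-- The identity for the Fourier transform. -/
theorem Dec_id (h1 : S_SVZ) (u : H2) (hu : SV u) {χ : E5 → ℂ} (hχ : Tst χ) (i : Fin 5) (ξ : E5) :
    (((2 * Real.pi * ξ i : ℝ) : ℂ) * Complex.I) * 𝓕 (fun x => χ x * u x) ξ
      = 𝓕 (fun x => pd i χ x * u x) ξ
        + 𝓕 (fun x => χ x * (fderiv ℝ (fun h => Tt h u) 0 (e5 i) : H2) x) ξ
        - 𝓕 (fun x => (Dec_z i x * χ x) * (fderiv ℝ (fun h => Tt h u) 0 (e5 4) : H2) x) ξ := by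
  set v := fderiv ℝ (fun h => Tt h u) 0 (e5 i) with hv
  set v4 := fderiv ℝ (fun h => Tt h u) 0 (e5 4) with hv4
  have hψ : Tst fun x => χ x * Dec_es ξ x := hχ.mul_right (Dec_es_sm ξ)
  have hzψ : Tst fun x => Dec_z i x * (χ x * Dec_es ξ x) := Tst.mul_left (Dec_z_sm i) hψ
  have e1 := (h1 u hu i).2 _ hψ
  have e2 := (h1 u hu 4).2 _ hzψ
  rw [← hv] at e1
  rw [← hv4] at e2
  simp only [Dec_Zf4 hψ.sm] at e2
  have i1 : Integrable (fun x => u x * Zf i (fun x => χ x * Dec_es ξ x) x) volume := by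
    refine Dec_int u ⟨hψ.sm.Zf i, ?_⟩
    exact ((hψ.pd i).add (Tst.mul_left (Dec_z_sm i) (hψ.pd 4))).cs
  have i2 : Integrable (fun x => u x * (Dec_z i x * pd 4 (fun x => χ x * Dec_es ξ x) x)) volume :=
    Dec_int u (Tst.mul_left (Dec_z_sm i) (hψ.pd 4))
  have e3 : (∫ x, u x * Zf i (fun x => χ x * Dec_es ξ x) x)
      - (∫ x, u x * (Dec_z i x * pd 4 (fun x => χ x * Dec_es ξ x) x))
      = (∫ x, Dec_es ξ x * (pd i χ x * u x))
        - (((2 * Real.pi * ξ i : ℝ) : ℂ) * Complex.I) * ∫ x, Dec_es ξ x * (χ x * u x) := by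
    have i3 : Integrable (fun x => Dec_es ξ x * (pd i χ x * u x)) volume := by
      refine (Dec_int u ((hχ.pd i).mul_right (Dec_es_sm ξ))).congr
        (Filter.Eventually.of_forall fun x => ?_)
      show u x * (pd i χ x * Dec_es ξ x) = Dec_es ξ x * (pd i χ x * u x)
      ring
    have i4 : Integrable (fun x => Dec_es ξ x * (χ x * u x)) volume := by
      refine (Dec_int u hψ).congr (Filter.Eventually.of_forall fun x => ?_)
      show u x * (χ x * Dec_es ξ x) = Dec_es ξ x * (χ x * u x)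
      ring
    rw [← integral_sub i1 i2, ← integral_const_mul, ← integral_sub i3 (i4.const_mul _)]
    refine integral_congr_ae (Filter.Eventually.of_forall fun x => ?_)
    show u x * (pd i (fun x => χ x * Dec_es ξ x) x + (zco i x : ℂ) * pd 4 (fun x => χ x * Dec_es ξ x) x)
      - u x * (Dec_z i x * pd 4 (fun x => χ x * Dec_es ξ x) x)
      = Dec_es ξ x * (pd i χ x * u x)
        - (((2 * Real.pi * ξ i : ℝ) : ℂ) * Complex.I) * (Dec_es ξ x * (χ x * u x))
    rw [pd_mul hχ.sm (Dec_es_sm ξ) i, Dec_pd_es]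
    unfold Dec_z
    push_cast
    ring
  simp only [Dec_four]
  have e4 : ∫ x, Dec_es ξ x * (χ x * v x) = ∫ x, v x * (χ x * Dec_es ξ x) :=
    integral_congr_ae (Filter.Eventually.of_forall fun x => by
      show Dec_es ξ x * (χ x * v x) = v x * (χ x * Dec_es ξ x); ring)
  have e5' : ∫ x, Dec_es ξ x * (Dec_z i x * χ x * v4 x)
      = ∫ x, v4 x * (Dec_z i x * (χ x * Dec_es ξ x)) :=
    integral_congr_ae (Filter.Eventually.of_forall fun x => by
      show Dec_es ξ x * (Dec_z i x * χ x * v4 x) = v4 x * (Dec_z i x * (χ x * Dec_es ξ x)); ring)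
  rw [e4, e5', e1, e2]
  linear_combination e3

theorem Dec_norm_le (ξ : E5) : ‖ξ‖ ≤ ∑ i, |ξ i| := by
  have h : ‖ξ‖ ^ 2 ≤ (∑ i, |ξ i|) ^ 2 := by
    rw [EuclideanSpace.norm_sq_eq]
    simp only [Real.norm_eq_abs]
    exact Finset.sum_sq_le_sq_sum_of_nonneg fun i _ => abs_nonneg _
  exact abs_le_of_sq_le_sq' h (Finset.sum_nonneg fun i _ => abs_nonneg _) |>.2

theorem pDec (h1 : S_SVZ) : S_Dec := by
  have main : ∀ n : ℕ, ∀ u : H2, SV u → ∀ χ, Tst χ → ∃ C : ℝ, ∀ ξ : E5,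
      ‖ξ‖ ^ n * ‖𝓕 (fun x => χ x * u x) ξ‖ ≤ C := by
    intro n
    induction n with
    | zero =>
      intro u _ χ _
      refine ⟨∫ x, ‖χ x * u x‖, fun ξ => ?_⟩
      rw [pow_zero, one_mul, Dec_four]
      refine (norm_integral_le_integral_norm _).trans (le_of_eq ?_)
      refine integral_congr_ae (Filter.Eventually.of_forall fun x => ?_)
      show ‖Dec_es ξ x * (χ x * u x)‖ = ‖χ x * u x‖
      rw [norm_mul, Dec_norm_es, one_mul]
    | succ n ih =>
      intro u hu χ hχ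
      have step : ∀ i : Fin 5, ∃ C : ℝ, ∀ ξ : E5,
          ‖ξ‖ ^ n * (|ξ i| * ‖𝓕 (fun x => χ x * u x) ξ‖) ≤ C := by
        intro i
        obtain ⟨A, hA⟩ := ih u hu (pd i χ) (hχ.pd i)
        obtain ⟨B, hB⟩ := ih _ (h1 u hu i).1 χ hχ
        obtain ⟨D, hD⟩ := ih _ (h1 u hu 4).1 (fun x => Dec_z i x * χ x) (Tst.mul_left (Dec_z_sm i) hχ)
        refine ⟨A + B + D, fun ξ => ?_⟩
        have hid := congrArg (fun z : ℂ => ‖z‖) (Dec_id h1 u hu hχ i ξ)
        simp only at hid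
        rw [norm_mul, norm_mul, Complex.norm_I, mul_one, Complex.norm_real, Real.norm_eq_abs,
          abs_mul, abs_of_pos (by positivity : (0 : ℝ) < 2 * Real.pi)] at hid
        have hle : |ξ i| * ‖𝓕 (fun x => χ x * u x) ξ‖ ≤ ‖𝓕 (fun x => pd i χ x * u x) ξ‖
            + ‖𝓕 (fun x => χ x * (fderiv ℝ (fun h => Tt h u) 0 (e5 i) : H2) x) ξ‖
            + ‖𝓕 (fun x => (Dec_z i x * χ x) * (fderiv ℝ (fun h => Tt h u) 0 (e5 4) : H2) x) ξ‖ := by
          have h2 : |ξ i| * ‖𝓕 (fun x => χ x * u x) ξ‖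
              ≤ 2 * Real.pi * |ξ i| * ‖𝓕 (fun x => χ x * u x) ξ‖ := by
            have h3 : 0 ≤ |ξ i| * ‖𝓕 (fun x => χ x * u x) ξ‖ := by positivity
            have h4 : 1 ≤ 2 * Real.pi := by have := Real.pi_gt_three; linarith
            nlinarith
          rw [hid] at h2
          refine h2.trans ((norm_sub_le _ _).trans ?_)
          gcongr
          exact norm_add_le _ _
        have h5 : 0 ≤ ‖ξ‖ ^ n := by positivity
        have h6 := mul_le_mul_of_nonneg_left hle h5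
        have a1 := hA ξ
        have a2 := hB ξ
        have a3 := hD ξ
        rw [mul_add, mul_add] at h6
        linarith
      choose C hC using step
      refine ⟨∑ i, C i, fun ξ => ?_⟩
      have h7 : 0 ≤ ‖ξ‖ ^ n * ‖𝓕 (fun x => χ x * u x) ξ‖ := by positivity
      calc ‖ξ‖ ^ (n + 1) * ‖𝓕 (fun x => χ x * u x) ξ‖
          = ‖ξ‖ * (‖ξ‖ ^ n * ‖𝓕 (fun x => χ x * u x) ξ‖) := by ring
        _ ≤ (∑ i, |ξ i|) * (‖ξ‖ ^ n * ‖𝓕 (fun x => χ x * u x) ξ‖) :=
            mul_le_mul_of_nonneg_right (Dec_norm_le ξ) h7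
        _ = ∑ i, ‖ξ‖ ^ n * (|ξ i| * ‖𝓕 (fun x => χ x * u x) ξ‖) := by
            rw [Finset.sum_mul]
            exact Finset.sum_congr rfl fun i _ => by ring
        _ ≤ ∑ i, C i := Finset.sum_le_sum fun i _ => hC i ξ
  exact fun u hu χ hχ n => main n u hu χ hχ

end Pool.Agent.CR5.C
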