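import Pool.Agent.Lib.CR5.SpecC

/-!
# CR5, block C: the space `EE` (helper34)
-/

open MeasureTheory Set Filter Topology
open scoped ENNReal ComplexConjugate

noncomputable section

namespace Pool.Agent.CR5.C

theorem EEb_Jf_tst {f : E5 → ℂ} (hf : Tst f) (k : Fin 6) : Tst (Jf f k) := by
  unfold Jf
  split_ifs
  · exact hf
  · exact Tst.L smS_a0 0 hf
  · exact Tst.L smS_a0 1 hf
  · exact Tst.Lb smS_a0 0 hf
  · exact Tst.Lb smS_a0 1 hf
  · exact Tst.pd hf 4

theorem EEb_Jf_add {f g : E5 → ℂ} (hf : Sm f) (hg : Sm g) (k : Fin 6) :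
    Jf (fun x => f x + g x) k = fun x => Jf f k x + Jf g k x := by
  funext x
  unfold Jf
  split_ifs
  · rfl
  · exact L_add hf hg 0 x
  · exact L_add hf hg 1 x
  · exact Lb_add hf hg 0 x
  · exact Lb_add hf hg 1 x
  · exact pd_add hf hg 4 x

theorem EEb_Lb_smul {f : E5 → ℂ} (hf : Sm f) (c : ℂ) (j : Fin 2) (x : E5) :
    Lb a0 j (fun y => c * f y) x = c * Lb a0 j f x := by
  have h := Lb_mul (a := a0) (Sm.const c) hf j x
  rw [Lb_const] at h
  rw [h]
  ring

theorem EEb_Jf_smul {f : E5 → ℂ} (hf : Sm f) (c : ℂ) (k : Fin 6) :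
    Jf (fun x => c * f x) k = fun x => c * Jf f k x := by
  funext x
  unfold Jf
  split_ifs
  · rfl
  · exact L_const_mul hf c 0 x
  · exact L_const_mul hf c 1 x
  · exact EEb_Lb_smul hf c 0 x
  · exact EEb_Lb_smul hf c 1 x
  · exact pd_const_mul hf c 4 x

theorem EEb_cl_add {f g : E5 → ℂ} (hf : MemLp f 2 volume) (hg : MemLp g 2 volume) :
    cl (fun x => f x + g x) = cl f + cl g := by
  apply Lp.ext
  have h1 := cl_coe (hf.add hg)
  have h2 := cl_coe hf
  have h3 := cl_coe hg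
  have h4 := Lp.coeFn_add (cl f) (cl g)
  filter_upwards [h1, h2, h3, h4] with x h1 h2 h3 h4
  rw [h4, Pi.add_apply, h2, h3]
  exact h1

theorem EEb_cl_smul {f : E5 → ℂ} (hf : MemLp f 2 volume) (c : ℂ) :
    cl (fun x => c * f x) = c • cl f := by
  apply Lp.ext
  have h1 := cl_coe (hf.const_smul c)
  have h2 := cl_coe hf
  have h4 := Lp.coeFn_smul c (cl f)
  filter_upwards [h1, h2, h4] with x h1 h2 h4
  rw [h4, Pi.smul_apply, h2]
  exact h1

theorem EEb_JJ_add {w w' : F2} (hw : ∀ j, Tst (w j)) (hw' : ∀ j, Tst (w' j)) :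
    JJ (fun j x => w j x + w' j x) = JJ w + JJ w' := by
  ext1 p
  show cl (Jf (fun x => w p.1 x + w' p.1 x) p.2) = cl (Jf (w p.1) p.2) + cl (Jf (w' p.1) p.2)
  rw [EEb_Jf_add (hw _).sm (hw' _).sm, EEb_cl_add (EEb_Jf_tst (hw _) _).memLp
    (EEb_Jf_tst (hw' _) _).memLp]

theorem EEb_JJ_smul {w : F2} (hw : ∀ j, Tst (w j)) (c : ℂ) :
    JJ (fun j x => c * w j x) = c • JJ w := by
  ext1 p
  show cl (Jf (fun x => c * w p.1 x) p.2) = c • cl (Jf (w p.1) p.2)
  rw [EEb_Jf_smul (hw _).sm, EEb_cl_smul (EEb_Jf_tst (hw _) _).memLp]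

/-- The submodule of the `JJ w`. -/
def EEb_M : Submodule ℂ HH where
  carrier := {u | ∃ w : F2, (∀ j, Tst (w j)) ∧ u = JJ w}
  add_mem' := by
    rintro _ _ ⟨w, hw, rfl⟩ ⟨w', hw', rfl⟩
    exact ⟨fun j x => w j x + w' j x, fun j => (hw j).add (hw' j), (EEb_JJ_add hw hw').symm⟩
  zero_mem' := by
    refine ⟨fun j x => 0 * (fun _ : E5 => (0 : ℂ)) x,
      fun j => Tst.mul_left (Sm.const 0) Tst.zero, ?_⟩
    have h := EEb_JJ_smul (w := fun _ _ => 0) (fun _ => Tst.zero) 0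
    rw [zero_smul] at h
    exact h.symm
  smul_mem' := by
    rintro c _ ⟨w, hw, rfl⟩
    exact ⟨fun j x => c * w j x, fun j => Tst.mul_left (Sm.const c) (hw j),
      (EEb_JJ_smul hw c).symm⟩

theorem EEb_mem {w : F2} (hw : ∀ j, Tst (w j)) : JJ w ∈ EE :=
  Submodule.le_topologicalClosure _ (Submodule.subset_span ⟨w, hw, rfl⟩)

theorem EEb_ind (P : HH → Prop) (hP : IsClosed {u | P u})
    (h : ∀ w : F2, (∀ j, Tst (w j)) → P (JJ w)) : ∀ u ∈ EE, P u := by
  intro u hu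
  have h1 : Submodule.span ℂ {u : HH | ∃ w : F2, (∀ j, Tst (w j)) ∧ u = JJ w} ≤ EEb_M :=
    Submodule.span_le.2 fun v hv => hv
  have h2 : ((Submodule.span ℂ {u : HH | ∃ w : F2, (∀ j, Tst (w j)) ∧ u = JJ w} :
      Submodule ℂ HH) : Set HH) ⊆ {u | P u} := by
    intro v hv
    obtain ⟨w, hw, rfl⟩ := h1 hv
    exact h w hw
  have h3 : u ∈ closure ((Submodule.span ℂ {u : HH | ∃ w : F2, (∀ j, Tst (w j)) ∧ u = JJ w} :
      Submodule ℂ HH) : Set HH) := by
    rw [← Submodule.topologicalClosure_coe]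
    exact hu
  exact closure_minimal h2 hP h3

theorem pEEb (h1 : S_Com) : S_EEb := by
  refine ⟨fun w hw => EEb_mem hw, EEb_ind, ?_, ?_, Submodule.isClosed_topologicalClosure _⟩
  · intro h
    refine EEb_ind (fun u => TH h u ∈ EE) ?_ ?_
    · exact (Submodule.isClosed_topologicalClosure _).preimage (TH h).continuous
    · intro w hw
      have h2 : TH h (JJ w) = JJ (fun j x => w j (lh h x)) := by
        ext1 p
        show Tt h (cl (Jf (w p.1) p.2)) = cl (Jf (fun x => w p.1 (lh h x)) p.2)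
        rw [Tt_cl (EEb_Jf_tst (hw _) _).memLp]
        congr 1
        funext x
        exact ((h1.1 h (w p.1) (hw _).sm).2 p.2 x).symm
      show TH h (JJ w) ∈ EE
      rw [h2]
      exact EEb_mem fun j => h1.2 h (w j) (hw j)
  · intro w hw p
    exact cl_coe (EEb_Jf_tst (hw _) _).memLp

end Pool.Agent.CR5.C
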