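import Pool.Agent.Lib.CR5.SpecC

/-!
# CR5, block C: the weak equation gives the equation
-/

open MeasureTheory Set Filter Topology
open scoped ENNReal ComplexConjugate

noncomputable section

namespace Pool.Agent.CR5.C

namespace Equx

theorem inner_ae {u v : H2} {f g : E5 → ℂ} (hu : (u : E5 → ℂ) =ᵐ[volume] f)
    (hv : (v : E5 → ℂ) =ᵐ[volume] g) : inner ℂ u v = ∫ x, g x * conj (f x) := by
  rw [L2.inner_def]
  refine integral_congr_ae ?_
  filter_upwards [hu, hv] with x h1 h2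
  rw [h1, h2, RCLike.inner_apply]

theorem inner_sqrt {e : ℝ} (he : 0 < e) (u v : H2) :
    inner ℂ ((Real.sqrt e : ℂ) • u) ((Real.sqrt e : ℂ) • v) = (e : ℂ) * inner ℂ u v := by
  rw [inner_smul_left, inner_smul_right, Complex.conj_ofReal, ← mul_assoc, ← Complex.ofReal_mul,
    Real.mul_self_sqrt he.le]

theorem ibpA {a : Str} (ha : SmS a) (j : Fin 2) {f g : E5 → ℂ} (hf : Sm f) (hg : Tst g) :
    ∫ x, f x * conj (L a j g x) = ∫ x, Ls a j f x * conj (g x) := by
  have h := congrArg conj (ibp_L' ha j hg hf)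
  rw [← integral_conj, ← integral_conj] at h
  calc ∫ x, f x * conj (L a j g x) = ∫ x, conj (L a j g x * conj (f x)) := by
        refine integral_congr_ae (Eventually.of_forall fun x => ?_)
        simp only [map_mul, Complex.conj_conj]; ring
    _ = ∫ x, conj (g x * conj (Ls a j f x)) := h
    _ = _ := by
        refine integral_congr_ae (Eventually.of_forall fun x => ?_)
        simp only [map_mul, Complex.conj_conj]; ring

theorem itg {f g : E5 → ℂ} (hf : Sm f) (hg : Tst g) : Integrable (fun x => f x * conj (g x)) :=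
  (Tst.mul_left hf hg.conj).integrable

/-- all integrations by parts -/
theorem parts {a : Str} (ha : SmS a) (e : ℝ) {w ψ : F2} (hw : ∀ j, Sm (w j))
    (hψ : ∀ j, Tst (ψ j)) :
    (∫ x, D0s a w x * conj (D0s a ψ x)) + (∫ x, D1 a w x * conj (D1 a ψ x))
      + (e : ℂ) * (∫ x, w 0 x * conj (ψ 0 x)) + (e : ℂ) * (∫ x, w 1 x * conj (ψ 1 x))
      + (e : ℂ) * (∫ x, pd 4 (w 0) x * conj (pd 4 (ψ 0) x))
      + (e : ℂ) * (∫ x, pd 4 (w 1) x * conj (pd 4 (ψ 1) x))
    = (∫ x, BoxE a e w 0 x * conj (ψ 0 x)) + ∫ x, BoxE a e w 1 x * conj (ψ 1 x) := by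
  have hD0 : Sm (D0s a w) := Sm.D0s ha hw
  have hD1 : Sm (D1 a w) := Sm.D1 ha hw
  have e1 : (∫ x, D0s a w x * conj (D0s a ψ x))
      = (∫ x, L a 0 (D0s a w) x * conj (ψ 0 x)) + ∫ x, L a 1 (D0s a w) x * conj (ψ 1 x) := by
    rw [ibp_L ha 0 hD0 (hψ 0), ibp_L ha 1 hD0 (hψ 1),
      ← integral_add (itg hD0 ((hψ 0).Ls ha 0)) (itg hD0 ((hψ 1).Ls ha 1))]
    refine integral_congr_ae (Eventually.of_forall fun x => ?_)
    simp only [D0s, map_add]; ring
  have e2 : (∫ x, D1 a w x * conj (D1 a ψ x))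
      = (∫ x, -Ls a 1 (D1 a w) x * conj (ψ 0 x)) + ∫ x, Ls a 0 (D1 a w) x * conj (ψ 1 x) := by
    have h0 : (∫ x, -Ls a 1 (D1 a w) x * conj (ψ 0 x)) = -∫ x, Ls a 1 (D1 a w) x * conj (ψ 0 x) := by
      rw [← integral_neg]
      refine integral_congr_ae (Eventually.of_forall fun x => ?_)
      simp only; ring
    rw [h0, ← ibpA ha 1 hD1 (hψ 0), ← ibpA ha 0 hD1 (hψ 1), neg_add_eq_sub,
      ← integral_sub (itg hD1 ((hψ 1).L ha 0)) (itg hD1 ((hψ 0).L ha 1))]
    refine integral_congr_ae (Eventually.of_forall fun x => ?_)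
    simp only [D1, map_sub]; ring
  have e3 : ∀ j, (∫ x, pd 4 (w j) x * conj (pd 4 (ψ j) x))
      = -∫ x, pd 4 (pd 4 (w j)) x * conj (ψ j x) := by
    intro j
    have h := ibp_pd ((hw j).pd 4) (hψ j).conj 4
    rw [h, neg_neg]
    refine integral_congr_ae (Eventually.of_forall fun x => ?_)
    simp only [pd_conj (hψ j).sm]
  have e4 : ∀ j, (∫ x, BoxE a e w j x * conj (ψ j x))
      = (∫ x, L a j (D0s a w) x * conj (ψ j x)) + (∫ x, D1s a (D1 a w) j x * conj (ψ j x))
        + (e : ℂ) * (∫ x, w j x * conj (ψ j x))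
        + (e : ℂ) * (-∫ x, pd 4 (pd 4 (w j)) x * conj (ψ j x)) := by
    intro j
    have i1 : Integrable (fun x => L a j (D0s a w) x * conj (ψ j x)) := itg (hD0.L ha j) (hψ j)
    have i2 : Integrable (fun x => D1s a (D1 a w) j x * conj (ψ j x)) :=
      itg (Sm.D1s ha hD1 j) (hψ j)
    have i3 : Integrable (fun x => (e : ℂ) * (w j x * conj (ψ j x))) :=
      (itg (hw j) (hψ j)).const_mul _
    have i4 : Integrable (fun x => (e : ℂ) * -(pd 4 (pd 4 (w j)) x * conj (ψ j x))) :=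
      (itg (((hw j).pd 4).pd 4) (hψ j)).neg.const_mul _
    have i12 : Integrable (fun x => L a j (D0s a w) x * conj (ψ j x)
        + D1s a (D1 a w) j x * conj (ψ j x)) := i1.add i2
    have i123 : Integrable (fun x => (L a j (D0s a w) x * conj (ψ j x)
        + D1s a (D1 a w) j x * conj (ψ j x)) + (e : ℂ) * (w j x * conj (ψ j x))) := i12.add i3
    rw [← integral_neg, ← integral_const_mul, ← integral_const_mul,
      ← integral_add i1 i2, ← integral_add i12 i3, ← integral_add i123 i4]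
    refine integral_congr_ae (Eventually.of_forall fun x => ?_)
    simp only [BoxE, Box, D0]; ring
  have e5 : (∫ x, D1s a (D1 a w) 0 x * conj (ψ 0 x))
      = ∫ x, -Ls a 1 (D1 a w) x * conj (ψ 0 x) := by
    refine integral_congr_ae (Eventually.of_forall fun x => ?_)
    simp only [D1s]; simp
  have e6 : (∫ x, D1s a (D1 a w) 1 x * conj (ψ 1 x))
      = ∫ x, Ls a 0 (D1 a w) x * conj (ψ 1 x) := by
    refine integral_congr_ae (Eventually.of_forall fun x => ?_)
    simp only [D1s]; simp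
  rw [e1, e2, e3 0, e3 1, e4 0, e4 1, e5, e6]
  ring

end Equx

open Equx

theorem pEqu (h1 : S_EEb) (h2 : S_SSb) (h3 : S_FFb) (h4 : S_AE) : S_Equ := by
  intro a m ε hN e he U hU w Φ hw hΦ hUw heq
  have ha : SmS a := hN.sm
  obtain ⟨hJE, -, -, hJc, -⟩ := h1
  obtain ⟨-, -, hS⟩ := h2 a m ε hN e he
  obtain ⟨u0, u1, u2, u3, u4, u5⟩ := hS U w hw hUw
  have key : ∀ ψ : F2, (∀ j, Tst (ψ j)) →
      (∫ x, BoxE a e w 0 x * conj (ψ 0 x)) + (∫ x, BoxE a e w 1 x * conj (ψ 1 x))
        = (∫ x, Φ 0 x * conj (ψ 0 x)) + ∫ x, Φ 1 x * conj (ψ 1 x) := by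
    intro ψ hψ
    obtain ⟨v0, v1, v2, v3, v4, v5⟩ := hS (JJ ψ) ψ (fun j => (hψ j).sm) (hJc ψ hψ)
    have h := heq (JJ ψ) (hJE ψ hψ)
    rw [h3.2.1 Φ ψ hΦ hψ, PiLp.inner_apply, Fin.sum_univ_six, inner_ae v0 u0, inner_ae v1 u1,
      u2, u3, u4, u5, v2, v3, v4, v5, inner_sqrt he, inner_sqrt he, inner_sqrt he, inner_sqrt he,
      inner_ae (hJc ψ hψ (0, 0)) (hUw (0, 0)), inner_ae (hJc ψ hψ (1, 0)) (hUw (1, 0)),
      inner_ae (hJc ψ hψ (0, 5)) (hUw (0, 5)), inner_ae (hJc ψ hψ (1, 5)) (hUw (1, 5)),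
      Fin.sum_univ_two] at h
    rw [← parts ha e hw hψ, ← h]
    rfl
  have hsm : ∀ j, Sm (BoxE a e w j) := fun j =>
    (Sm.Box ha hw j).add ((Sm.const _).mul ((hw j).sub (((hw j).pd 4).pd 4)))
  intro j x
  have hfun : BoxE a e w j = Φ j := by
    refine h4.2 _ _ (hsm j).cont (hΦ j).sm.cont ?_
    intro ψ hψ
    have hz : ∀ f : E5 → ℂ, (∫ x, f x * conj ((fun _ : E5 => (0 : ℂ)) x)) = 0 := by
      intro f; simp
    have hc : ∀ f : E5 → ℂ, (∫ x, f x * conj ((fun y => conj (ψ y)) x)) = ∫ x, f x * ψ x := by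
      intro f; simp
    fin_cases j
    · have h := key (fun i => if i = 0 then (fun y => conj (ψ y)) else fun _ => 0)
        (fun i => by
          by_cases hi : i = 0
          · simp only [hi, if_true]; exact hψ.conj
          · simp only [hi, if_false]; exact Tst.zero)
      simp only [if_true, one_ne_zero, if_false] at h
      rw [hz, hz, hc, hc, add_zero, add_zero] at h
      exact h
    · have h := key (fun i => if i = 0 then (fun _ => 0) else fun y => conj (ψ y))
        (fun i => by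
          by_cases hi : i = 0
          · simp only [hi, if_true]; exact Tst.zero
          · simp only [hi, if_false]; exact hψ.conj)
      simp only [if_true, one_ne_zero, if_false] at h
      rw [hz, hz, hc, hc, zero_add, zero_add] at h
      exact h
  rw [hfun]

end Pool.Agent.CR5.C
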