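import Pool.Agent.Lib.CR5.SpecC
import Pool.Agent.Lib.CR5.D.cOut

/-!
# CR5, block C: expansion of `L`, `Ls`, `D0s`, `D1` in the components
-/

set_option autoImplicit false

open MeasureTheory Set Filter Topology
open scoped ENNReal ComplexConjugate FourierTransform

noncomputable section

namespace Pool.Agent.CR5.C

theorem Exp_L0 (f : E5 → ℂ) (l : Fin 2) (x : E5) :
    L a0 l f x = db l.castSucc f x + a0 l 2 x * pd 4 f x := by
  unfold L
  rw [Fin.sum_univ_three, dz_two]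
  have h0 : a0 l 0 x = 0 := by simp [a0]
  have h1 : a0 l 1 x = 0 := by simp [a0]
  rw [h0, h1]
  ring

theorem Exp_Lb0 (f : E5 → ℂ) (l : Fin 2) (x : E5) :
    Lb a0 l f x = dz l.castSucc f x + conj (a0 l 2 x) * pd 4 f x := by
  unfold Lb
  rw [Fin.sum_univ_three, db_two]
  have h0 : a0 l 0 x = 0 := by simp [a0]
  have h1 : a0 l 1 x = 0 := by simp [a0]
  rw [h0, h1, map_zero]
  ring

theorem Exp_L (a : Str) (j : Fin 2) (f : E5 → ℂ) (x : E5) :
    L a j f x = ∑ k, cL a j k x * Jf f k x := by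
  have e0 : cL a j 0 x = 0 := by simp [cL]
  have e3 : cL a j 3 x = a j 0 x := by simp [cL]
  have e4 : cL a j 4 x = a j 1 x := by simp [cL]
  have e5 : cL a j 5 x = tau a j x := by simp [cL]
  have f1 : Jf f 1 = L a0 0 f := by simp [Jf]
  have f2 : Jf f 2 = L a0 1 f := by simp [Jf]
  have f3 : Jf f 3 = Lb a0 0 f := by simp [Jf]
  have f4 : Jf f 4 = Lb a0 1 f := by simp [Jf]
  have f5 : Jf f 5 = pd 4 f := by simp [Jf]
  have g : cL a j 1 x * L a0 0 f x + cL a j 2 x * L a0 1 f x = L a0 j f x := by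
    have hj : j = 0 ∨ j = 1 := by fin_cases j <;> simp
    rcases hj with rfl | rfl <;> simp [cL]
  rw [Fin.sum_univ_six, e0, e3, e4, e5, f1, f2, f3, f4, f5]
  have h : L a j f x = db j.castSucc f x + (a j 0 x * dz 0 f x + a j 1 x * dz 1 f x
      + a j 2 x * pd 4 f x) := by
    unfold L
    rw [Fin.sum_univ_three, dz_two]
  have b0 := Exp_Lb0 f 0 x
  have b1 := Exp_Lb0 f 1 x
  have c0 : (Fin.castSucc (0 : Fin 2) : Fin 3) = 0 := rfl
  have c1 : (Fin.castSucc (1 : Fin 2) : Fin 3) = 1 := rfl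
  rw [c0] at b0
  rw [c1] at b1
  have aj := Exp_L0 f j x
  unfold tau
  rw [h]
  linear_combination -g - aj - a j 0 x * b0 - a j 1 x * b1

theorem Exp_Ls {a : Str} (ha : SmS a) (j : Fin 2) {f : E5 → ℂ} (hf : Sm f) (x : E5) :
    Ls a j f x = ∑ k, cS a j k x * Jf f k x := by
  have e0 : cS a j 0 x = -dv a j x := by simp [cS]
  have e1 : cS a j 1 x = -conj (a j 0 x) := by simp [cS]
  have e2 : cS a j 2 x = -conj (a j 1 x) := by simp [cS]
  have e5 : cS a j 5 x = -conj (tau a j x) := by simp [cS]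
  have f0 : Jf f 0 = f := by simp [Jf]
  have f1 : Jf f 1 = L a0 0 f := by simp [Jf]
  have f2 : Jf f 2 = L a0 1 f := by simp [Jf]
  have f3 : Jf f 3 = Lb a0 0 f := by simp [Jf]
  have f4 : Jf f 4 = Lb a0 1 f := by simp [Jf]
  have f5 : Jf f 5 = pd 4 f := by simp [Jf]
  have g : cS a j 3 x * Lb a0 0 f x + cS a j 4 x * Lb a0 1 f x = -Lb a0 j f x := by
    have hj : j = 0 ∨ j = 1 := by fin_cases j <;> simp
    rcases hj with rfl | rfl <;> simp [cS]
  rw [Fin.sum_univ_six, e0, e1, e2, e5, f0, f1, f2, f3, f4, f5, Ls_eq ha hf]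
  have h : Lb a j f x = dz j.castSucc f x + (conj (a j 0 x) * db 0 f x + conj (a j 1 x) * db 1 f x
      + conj (a j 2 x) * pd 4 f x) := by
    unfold Lb
    rw [Fin.sum_univ_three, db_two]
  have b0 := Exp_L0 f 0 x
  have b1 := Exp_L0 f 1 x
  have c0 : (Fin.castSucc (0 : Fin 2) : Fin 3) = 0 := rfl
  have c1 : (Fin.castSucc (1 : Fin 2) : Fin 3) = 1 := rfl
  rw [c0] at b0
  rw [c1] at b1
  have aj := Exp_Lb0 f j x
  unfold tau
  simp only [map_sub, map_mul, Complex.conj_conj]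
  rw [h]
  linear_combination -g + aj + conj (a j 0 x) * b0 + conj (a j 1 x) * b1

theorem Exp_tst {f : E5 → ℂ} (hf : Sm f) (h : ∀ x, 1 ≤ ‖x‖ → f x = 0) : Tst f := by
  refine ⟨hf, HasCompactSupport.intro (isCompact_closedBall (0 : E5) 1) ?_⟩
  intro x hx
  apply h
  rw [mem_closedBall_zero_iff] at hx
  exact (not_le.1 hx).le

theorem Exp_ct {f : E5 → ℂ} (hf : Sm f) (h : ∀ x, 1 ≤ ‖x‖ → f x = 0) : CT f := by
  refine ⟨0, ?_⟩
  have h1 := Exp_tst hf h
  have e : (fun x => f x - 0) = f := by funext x; ring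
  rw [e]
  exact h1

theorem Exp_ctc (c : ℂ) : CT fun _ => c := by
  refine ⟨c, ?_⟩
  have e : (fun _ : E5 => c - c) = fun _ => 0 := by funext x; ring
  rw [e]
  exact Tst.zero

theorem Exp_ctn {f : E5 → ℂ} (h : CT f) : CT fun x => -f x := by
  obtain ⟨c, hc⟩ := h
  refine ⟨-c, ?_⟩
  have e : (fun x => -f x - -c) = fun x => -(f x - c) := by funext x; ring
  rw [e]
  exact hc.neg

section

variable {a : Str} {m : ℕ} {ε : ℝ}

theorem Exp_out (h : Near a m ε) (j : Fin 2) (l : Fin 3) (hl : l ≠ 2) (x : E5) (hx : 1 ≤ ‖x‖) :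
    a j l x = 0 := by
  rw [h.out j l x hx]
  simp [a0, hl]

theorem Exp_smtau (h : Near a m ε) (j : Fin 2) : Sm (tau a j) :=
  (((h.sm j 2).sub (smS_a0 j 2)).sub ((h.sm j 0).mul (smS_a0 0 2).conj)).sub
    ((h.sm j 1).mul (smS_a0 1 2).conj)

theorem Exp_outtau (h : Near a m ε) (j : Fin 2) (x : E5) (hx : 1 ≤ ‖x‖) : tau a j x = 0 := by
  unfold tau
  rw [Exp_out h j 0 (by decide) x hx, Exp_out h j 1 (by decide) x hx, h.out j 2 x hx]
  ring

theorem Exp_ctL (h : Near a m ε) (j : Fin 2) (k : Fin 6) : CT (cL a j k) := by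
  have hk : k = 0 ∨ k = 1 ∨ k = 2 ∨ k = 3 ∨ k = 4 ∨ k = 5 := by fin_cases k <;> simp
  rcases hk with rfl | rfl | rfl | rfl | rfl | rfl
  · have e : cL a j 0 = fun _ => 0 := by funext x; simp [cL]
    rw [e]; exact Exp_ctc _
  · have e : cL a j 1 = fun _ => if j = 0 then 1 else 0 := by funext x; simp [cL]
    rw [e]; exact Exp_ctc _
  · have e : cL a j 2 = fun _ => if j = 1 then 1 else 0 := by funext x; simp [cL]
    rw [e]; exact Exp_ctc _
  · have e : cL a j 3 = a j 0 := by funext x; simp [cL]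
    rw [e]; exact Exp_ct (h.sm j 0) (Exp_out h j 0 (by decide))
  · have e : cL a j 4 = a j 1 := by funext x; simp [cL]
    rw [e]; exact Exp_ct (h.sm j 1) (Exp_out h j 1 (by decide))
  · have e : cL a j 5 = tau a j := by funext x; simp [cL]
    rw [e]; exact Exp_ct (Exp_smtau h j) (Exp_outtau h j)

theorem Exp_ctS (h : Near a m ε) (j : Fin 2) (k : Fin 6) : CT (cS a j k) := by
  have hk : k = 0 ∨ k = 1 ∨ k = 2 ∨ k = 3 ∨ k = 4 ∨ k = 5 := by fin_cases k <;> simp
  rcases hk with rfl | rfl | rfl | rfl | rfl | rfl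
  · have e : cS a j 0 = fun x => -dv a j x := by funext x; simp [cS]
    rw [e]
    exact Exp_ctn (Exp_ct (Sm.dv h.smS j) fun x hx => (pcOut a ⟨h.smS, h.out⟩).2.1 j x hx)
  · have e : cS a j 1 = fun x => -conj (a j 0 x) := by funext x; simp [cS]
    rw [e]
    refine Exp_ctn (Exp_ct (h.sm j 0).conj ?_)
    intro x hx
    rw [Exp_out h j 0 (by decide) x hx, map_zero]
  · have e : cS a j 2 = fun x => -conj (a j 1 x) := by funext x; simp [cS]
    rw [e]
    refine Exp_ctn (Exp_ct (h.sm j 1).conj ?_)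
    intro x hx
    rw [Exp_out h j 1 (by decide) x hx, map_zero]
  · have e : cS a j 3 = fun _ => if j = 0 then -1 else 0 := by funext x; simp [cS]
    rw [e]; exact Exp_ctc _
  · have e : cS a j 4 = fun _ => if j = 1 then -1 else 0 := by funext x; simp [cS]
    rw [e]; exact Exp_ctc _
  · have e : cS a j 5 = fun x => -conj (tau a j x) := by funext x; simp [cS]
    rw [e]
    refine Exp_ctn (Exp_ct (Exp_smtau h j).conj ?_)
    intro x hx
    rw [Exp_outtau h j x hx, map_zero]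

end

theorem pExp : S_Exp := by
  intro a m ε h
  refine ⟨fun j f _ x => Exp_L a j f x, fun j f hf x => Exp_Ls h.smS j hf x, ?_, ?_, ?_, ?_⟩
  · intro w hw x
    rw [Fintype.sum_prod_type, Fin.sum_univ_two]
    unfold D0s
    rw [Exp_Ls h.smS 0 (hw 0), Exp_Ls h.smS 1 (hw 1)]
    rfl
  · intro w hw x
    rw [Fintype.sum_prod_type, Fin.sum_univ_two]
    unfold D1
    rw [Exp_L a 0 (w 1), Exp_L a 1 (w 0), sub_eq_add_neg, add_comm, ← Finset.sum_neg_distrib]
    congr 1
    refine Finset.sum_congr rfl fun k _ => ?_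
    show -(cL a 1 k x * Jf (w 0) k x) = q1 a (0, k) x * Jf (w 0) k x
    have e : q1 a (0, k) x = -cL a 1 k x := by simp [q1]
    rw [e]
    ring
  · rintro ⟨j, k⟩
    exact Exp_ctS h j k
  · rintro ⟨j, k⟩
    by_cases hj : j = 0
    · have e : q1 a (j, k) = fun x => -cL a 1 k x := by simp [q1, hj]
      rw [e]
      exact Exp_ctn (Exp_ctL h 1 k)
    · have e : q1 a (j, k) = cL a 0 k := by simp [q1, hj]
      rw [e]
      exact Exp_ctL h 0 k

end Pool.Agent.CR5.C
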