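import Pool.Agent.Lib.CR5.SpecC

/-!
# CR5, C/FFb: the right hand side
-/

open MeasureTheory Set Filter Topology
open scoped ENNReal ComplexConjugate FourierTransform

noncomputable section

namespace Pool.Agent.CR5.C

private theorem svh_iff (u : HH) : SVH u ↔ ∀ p, SV (u p) := by
  unfold SVH SV
  rw [contDiff_piLp 2]
  rfl

private theorem FF_apply (Φ : F2) (p : Fin 2 × Fin 6) :
    FF Φ p = if p.2 = 0 then cl (Φ p.1) else 0 := rfl

private theorem JJ_apply (w : F2) (p : Fin 2 × Fin 6) : JJ w p = cl (Jf (w p.1) p.2) := rfl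

theorem pFFb (h1 : S_OrbL2) (_h2 : S_EEb) : S_FFb := by
  refine ⟨?_, ?_, svh_iff⟩
  · intro Φ hΦ
    rw [svh_iff]
    intro p
    rw [FF_apply]
    by_cases hp : p.2 = 0
    · rw [if_pos hp]
      exact h1 _ (hΦ _)
    · rw [if_neg hp]
      unfold SV
      simp only [map_zero]
      exact contDiff_const
  · intro Φ ψ hΦ hψ
    rw [PiLp.inner_apply, Fintype.sum_prod_type]
    refine Finset.sum_congr rfl fun j _ => ?_
    rw [Finset.sum_eq_single (0 : Fin 6)]
    · rw [FF_apply, JJ_apply, if_pos rfl, L2.inner_def]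
      have e : Jf (ψ j) 0 = ψ j := by simp [Jf]
      change ∫ a, inner ℂ ((cl (Jf (ψ j) 0) : H2) a) ((cl (Φ j) : H2) a) = _
      rw [e]
      apply integral_congr_ae
      filter_upwards [cl_coe (hψ j).memLp, cl_coe (hΦ j).memLp] with x hx hx'
      rw [hx, hx', RCLike.inner_apply]
    · intro k _ hk
      rw [FF_apply, if_neg hk, inner_zero_right]
    · intro h
      exact (h (Finset.mem_univ _)).elim

end Pool.Agent.CR5.C
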