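import Pool.Agent.Lib.CR5.SpecC

/-!
# CR5, block C: a function with rapidly decaying Fourier transform is smooth
-/

open MeasureTheory Set Filter Topology
open scoped ENNReal ComplexConjugate FourierTransform

noncomputable section

namespace Pool.Agent.CR5.C

private theorem Fou_mom {F : E5 → ℂ} (hF : Continuous F)
    (hdec : ∀ n : ℕ, ∃ C : ℝ, ∀ ξ : E5, ‖ξ‖ ^ n * ‖F ξ‖ ≤ C) (n : ℕ) :
    Integrable (fun ξ : E5 => ‖ξ‖ ^ n * ‖F ξ‖) volume := by
  obtain ⟨C1, hC1⟩ := hdec n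
  obtain ⟨C2, hC2⟩ := hdec (n + 6)
  have hint : Integrable (fun ξ : E5 => (1 + ‖ξ‖) ^ (-(6 : ℝ))) volume := by
    apply integrable_one_add_norm
    simp
    norm_num
  refine Integrable.mono' (hint.const_mul (64 * (C1 + C2))) ?_ ?_
  · exact ((continuous_norm.pow n).mul hF.norm).aestronglyMeasurable
  · filter_upwards with ξ
    have hp : (0 : ℝ) < 1 + ‖ξ‖ := by positivity
    rw [Real.norm_of_nonneg (by positivity), Real.rpow_neg hp.le]
    have h6 : (1 + ‖ξ‖) ^ (6 : ℝ) = (1 + ‖ξ‖) ^ 6 := by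
      rw [← Real.rpow_natCast]; norm_num
    rw [h6, ← div_eq_mul_inv, le_div_iff₀ (by positivity)]
    have h1 : (1 + ‖ξ‖) ^ 6 ≤ 64 * (1 + ‖ξ‖ ^ 6) := by
      rcases le_total ‖ξ‖ 1 with h | h
      · have : (1 + ‖ξ‖) ^ 6 ≤ 2 ^ 6 := pow_le_pow_left₀ hp.le (by linarith) 6
        nlinarith [pow_nonneg (norm_nonneg ξ) 6]
      · have : (1 + ‖ξ‖) ^ 6 ≤ (2 * ‖ξ‖) ^ 6 := pow_le_pow_left₀ hp.le (by linarith) 6
        rw [mul_pow] at this
        nlinarith [pow_nonneg (norm_nonneg ξ) 6]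
    have h2 : ‖ξ‖ ^ n * ‖F ξ‖ * (1 + ‖ξ‖) ^ 6 ≤ ‖ξ‖ ^ n * ‖F ξ‖ * (64 * (1 + ‖ξ‖ ^ 6)) :=
      mul_le_mul_of_nonneg_left h1 (by positivity)
    have h3 := hC1 ξ
    have h4 := hC2 ξ
    rw [pow_add] at h4
    nlinarith

theorem pFou (h1 : S_AE) : S_Fou := by
  intro f hf hdec
  have hcont : Continuous (𝓕 f) :=
    VectorFourier.fourierIntegral_continuous Real.continuous_fourierChar
      (by exact continuous_inner) hf
  have hmom := Fou_mom hcont hdec
  have hFint : Integrable (𝓕 f) volume := by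
    have := hmom 0
    simp only [pow_zero, one_mul] at this
    exact (integrable_norm_iff hcont.aestronglyMeasurable).1 this
  have hg : Sm (𝓕⁻ (𝓕 f)) := by
    show ContDiff ℝ (⊤ : ℕ∞) _
    rw [Real.fourierInv_eq_fourier_comp_neg]
    apply Real.contDiff_fourier
    intro n _
    have := (hmom n).comp_neg
    simpa using this
  refine ⟨𝓕⁻ (𝓕 f), hg, ?_⟩
  apply h1.1 f _ hf.locallyIntegrable hg.cont.locallyIntegrable
  intro ψ hψ
  set S : SchwartzMap E5 ℂ := hψ.cs.toSchwartzMap hψ.sm with hS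
  have hSψ : (S : E5 → ℂ) = ψ := rfl
  set φ : SchwartzMap E5 ℂ := 𝓕⁻ S with hφ
  have hφψ : 𝓕 (φ : E5 → ℂ) = ψ := by
    rw [← SchwartzMap.fourier_coe, hφ, FourierTransform.fourier_fourierInv_eq]
    exact hSψ
  have hφc : (φ : E5 → ℂ) = 𝓕⁻ ψ := by
    rw [hφ, SchwartzMap.fourierInv_coe, hSψ]
  have e1 : ∫ x, f x * ψ x = ∫ ξ, 𝓕 f ξ * φ ξ := by
    have := VectorFourier.integral_fourierIntegral_smul_eq_flip (e := Real.fourierChar)
      (L := innerₗ E5) (μ := volume) (ν := volume) (f := f) (g := (φ : E5 → ℂ))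
      Real.continuous_fourierChar (by exact continuous_inner) hf φ.integrable
    rw [flip_innerₗ] at this
    have h2 : VectorFourier.fourierIntegral Real.fourierChar volume (innerₗ E5) (φ : E5 → ℂ) = ψ :=
      hφψ
    rw [h2] at this
    exact this.symm
  have e2 : ∫ x, 𝓕⁻ (𝓕 f) x * ψ x = ∫ ξ, 𝓕 f ξ * φ ξ := by
    have := VectorFourier.integral_fourierIntegral_smul_eq_flip (e := Real.fourierChar)
      (L := -innerₗ E5) (μ := volume) (ν := volume) (f := 𝓕 f) (g := ψ)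
      Real.continuous_fourierChar (by exact continuous_inner.neg) hFint hψ.integrable
    have h3 : (-innerₗ E5).flip = -innerₗ E5 := by
      ext x y
      simp [real_inner_comm]
    rw [h3] at this
    rw [hφc]
    exact this
  rw [e1, e2]

end Pool.Agent.CR5.C
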