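import Pool.Agent.Lib.CR5.SpecC

/-!
# CR5, block C: the abstract Hilbert space theorem (coercive problem with smooth orbit)
-/

open MeasureTheory Set Filter Topology
open scoped ENNReal ComplexConjugate

noncomputable section

namespace Pool.Agent.CR5.C

/-- the adjoint as a continuous real linear map -/
def Hil_adj (E F : Type) [NormedAddCommGroup E] [InnerProductSpace ℂ E] [CompleteSpace E]
    [NormedAddCommGroup F] [InnerProductSpace ℂ F] [CompleteSpace F] :
    (E →L[ℂ] F) →L[ℝ] (F →L[ℂ] E) :=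
  LinearMap.mkContinuous
    { toFun := fun A => ContinuousLinearMap.adjoint A
      map_add' := fun A B => map_add _ A B
      map_smul' := fun r A => by
        have h1 : r • A = (r : ℂ) • A := by
          ext x
          show r • A x = (r : ℂ) • A x
          rw [Complex.coe_smul]
        have h2 : r • ContinuousLinearMap.adjoint A
            = (r : ℂ) • ContinuousLinearMap.adjoint A := by
          ext x
          show r • (ContinuousLinearMap.adjoint A) x = (r : ℂ) • (ContinuousLinearMap.adjoint A) x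
          rw [Complex.coe_smul]
        show ContinuousLinearMap.adjoint (r • A) = r • ContinuousLinearMap.adjoint A
        rw [h1, h2, map_smulₛₗ, Complex.conj_ofReal] }
    1 fun A => by
      show ‖ContinuousLinearMap.adjoint A‖ ≤ 1 * ‖A‖
      rw [LinearIsometryEquiv.norm_map, one_mul]

theorem Hil_adj_apply {E F : Type} [NormedAddCommGroup E] [InnerProductSpace ℂ E]
    [CompleteSpace E] [NormedAddCommGroup F] [InnerProductSpace ℂ F] [CompleteSpace F]
    (A : E →L[ℂ] F) : Hil_adj E F A = ContinuousLinearMap.adjoint A := rfl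

theorem Hil_lh (h : E5) : lh h (-h) = 0 := by
  simp [lh, om_neg_right, om_self]

theorem Hil_lh' (h : E5) : lh (-h) h = 0 := by
  simp [lh, om_neg_left, om_self]

/-- the Gram operator -/
def Hil_G {H H' : Type} [NormedAddCommGroup H] [InnerProductSpace ℂ H] [NormedAddCommGroup H']
    [InnerProductSpace ℂ H'] [CompleteSpace H'] (E : Submodule ℂ H) [CompleteSpace E]
    (S : E5 → H →L[ℂ] H') (h : E5) : E →L[ℂ] E :=
  (ContinuousLinearMap.adjoint ((S h).comp E.subtypeL)).comp ((S h).comp E.subtypeL)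

theorem Hil_G_inner {H H' : Type} [NormedAddCommGroup H] [InnerProductSpace ℂ H]
    [NormedAddCommGroup H'] [InnerProductSpace ℂ H'] [CompleteSpace H'] (E : Submodule ℂ H)
    [CompleteSpace E] (S : E5 → H →L[ℂ] H') (h : E5) (v u : E) :
    inner ℂ v (Hil_G E S h u) = inner ℂ (S h v) (S h u) := by
  show inner ℂ v ((ContinuousLinearMap.adjoint ((S h).comp E.subtypeL)) (S h u)) = _
  rw [ContinuousLinearMap.adjoint_inner_right]
  rfl

theorem Hil_G_smooth {H H' : Type} [NormedAddCommGroup H] [InnerProductSpace ℂ H]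
    [NormedAddCommGroup H'] [InnerProductSpace ℂ H'] [CompleteSpace H'] (E : Submodule ℂ H)
    [CompleteSpace E] (S : E5 → H →L[ℂ] H') (hS : ContDiff ℝ (⊤ : ℕ∞) S) :
    ContDiff ℝ (⊤ : ℕ∞) (Hil_G E S) := by
  have h1 : ContDiff ℝ (⊤ : ℕ∞) fun h => (S h).comp E.subtypeL := by
    have h2 : ContDiff ℂ (⊤ : ℕ∞) fun p : (H →L[ℂ] H') × (E →L[ℂ] H) => p.1.comp p.2 :=
      isBoundedBilinearMap_comp.contDiff
    exact (h2.restrict_scalars ℝ).comp (hS.prodMk contDiff_const)
  have h3 : ContDiff ℝ (⊤ : ℕ∞) fun h => ContinuousLinearMap.adjoint ((S h).comp E.subtypeL) :=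
    (Hil_adj E H').contDiff.comp h1
  have h4 : ContDiff ℂ (⊤ : ℕ∞) fun p : (H' →L[ℂ] E) × (E →L[ℂ] H') => p.1.comp p.2 :=
    isBoundedBilinearMap_comp.contDiff
  exact (h4.restrict_scalars ℝ).comp (h3.prodMk h1)

theorem pHil : S_Hil := by
  intro H H' _ _ _ _ _ _ E hE T T' S hT0 hTT hTE hS hST F hF c hc hlow
  haveI : CompleteSpace E := hE.completeSpace_coe
  -- the projection
  obtain ⟨P, hP⟩ : ∃ P : H →L[ℂ] E, P = ContinuousLinearMap.adjoint E.subtypeL := ⟨_, rfl⟩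
  have hPi : ∀ (v : E) (x : H), inner ℂ v (P x) = inner ℂ (v : H) x := by
    intro v x
    rw [hP, ContinuousLinearMap.adjoint_inner_right]
    rfl
  have hGs := Hil_G_smooth E S hS
  -- the operator at the origin is invertible
  have hunit : IsUnit (Hil_G E S 0) := by
    have hc2 : (0 : ℝ) ≤ c ^ 2 := sq_nonneg c
    refine ContinuousLinearMap.isUnit_of_forall_le_norm_inner_map (Hil_G E S 0)
      (c := ⟨c ^ 2, hc2⟩) ?_ ?_
    · show (0 : ℝ) < c ^ 2
      positivity
    · intro x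
      show ‖x‖ ^ 2 * c ^ 2 ≤ ‖inner ℂ (Hil_G E S 0 x) x‖
      have h1 : inner ℂ (Hil_G E S 0 x) x = conj (inner ℂ x (Hil_G E S 0 x)) :=
        (inner_conj_symm _ _).symm
      rw [h1, RCLike.norm_conj, Hil_G_inner, inner_self_eq_norm_sq_to_K, norm_pow]
      have h2 := hlow x x.2
      have h3 : ‖((‖S 0 (x : H)‖ : ℝ) : ℂ)‖ = ‖S 0 (x : H)‖ := by
        rw [Complex.norm_real, norm_norm]
      have h4 : (c * ‖x‖) ^ 2 ≤ ‖S 0 (x : H)‖ ^ 2 :=
        pow_le_pow_left₀ (by positivity) h2 2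
      calc ‖x‖ ^ 2 * c ^ 2 = (c * ‖x‖) ^ 2 := by ring
        _ ≤ ‖S 0 (x : H)‖ ^ 2 := h4
        _ = ‖((‖S 0 (x : H)‖ : ℝ) : ℂ)‖ ^ 2 := by rw [h3]
  -- the solution
  obtain ⟨U, hU⟩ : ∃ U : E, U = (Ring.inverse (Hil_G E S 0)) (P F) := ⟨_, rfl⟩
  have hGU : Hil_G E S 0 U = P F := by
    rw [hU]
    have h1 := Ring.mul_inverse_cancel _ hunit
    have h2 := congrArg (fun A : E →L[ℂ] E => A (P F)) h1
    exact h2
  have hweak : ∀ v ∈ E, inner ℂ (S 0 v) (S 0 (U : H)) = inner ℂ v F := by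
    intro v hv
    have h1 := Hil_G_inner E S 0 ⟨v, hv⟩ U
    rw [hGU, hPi] at h1
    exact h1.symm
  -- the equation for the orbit
  have horb : ∀ h : E5, Hil_G E S h ⟨T h U, hTE h U U.2⟩ = P (T h F) := by
    intro h
    refine ext_inner_left ℂ fun v => ?_
    rw [Hil_G_inner, hPi]
    have hv' : T (-h) (v : H) ∈ E := hTE (-h) v v.2
    have hv : T h (T (-h) (v : H)) = v := by
      rw [hTT, Hil_lh', hT0]
    show inner ℂ (S h (v : H)) (S h (T h (U : H))) = inner ℂ (v : H) (T h F)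
    rw [← hv, hST, hST, LinearIsometry.inner_map_map, LinearIsometry.inner_map_map]
    exact hweak _ hv'
  -- smooth at the origin
  have hevent : ∀ᶠ h in 𝓝 (0 : E5), IsUnit (Hil_G E S h) := by
    have h1 : ContinuousAt (Hil_G E S) 0 := hGs.continuous.continuousAt
    have h2 : IsOpen {A : E →L[ℂ] E | IsUnit A} := Units.isOpen (R := E →L[ℂ] E)
    exact h1.preimage_mem_nhds (h2.mem_nhds hunit)
  have hzero : ContDiffAt ℝ (⊤ : ℕ∞) (fun h => T h (U : H)) 0 := by
    obtain ⟨x, hx⟩ := hunit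
    have h1 : ContDiffAt ℂ (⊤ : ℕ∞) (Ring.inverse : (E →L[ℂ] E) → (E →L[ℂ] E))
        (Hil_G E S 0) := by
      have h0 := contDiffAt_ringInverse (R := E →L[ℂ] E) (n := ((⊤ : ℕ∞) : WithTop ℕ∞)) ℂ x
      rw [← hx]
      exact h0
    have h2 : ContDiffAt ℝ (⊤ : ℕ∞) (fun h => Ring.inverse (Hil_G E S h)) 0 :=
      (h1.restrict_scalars ℝ).comp (0 : E5) hGs.contDiffAt
    have h3 : ContDiff ℝ (⊤ : ℕ∞) fun h => P (T h F) := by
      have h4 : ContDiff ℂ (⊤ : ℕ∞) P := P.contDiff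
      exact (h4.restrict_scalars ℝ).comp hF
    have h5 : ContDiff ℂ (⊤ : ℕ∞) fun p : (E →L[ℂ] E) × E => p.1 p.2 :=
      isBoundedBilinearMap_apply.contDiff
    have h6 : ContDiffAt ℝ (⊤ : ℕ∞) (fun h => (Ring.inverse (Hil_G E S h)) (P (T h F))) 0 :=
      (h5.restrict_scalars ℝ).contDiffAt.comp (0 : E5) (h2.prodMk h3.contDiffAt)
    have h7 : ContDiff ℂ (⊤ : ℕ∞) E.subtypeL := E.subtypeL.contDiff
    have h8 : ContDiffAt ℝ (⊤ : ℕ∞)
        (fun h => E.subtypeL ((Ring.inverse (Hil_G E S h)) (P (T h F)))) 0 :=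
      (h7.restrict_scalars ℝ).contDiffAt.comp (0 : E5) h6
    refine h8.congr_of_eventuallyEq ?_
    filter_upwards [hevent] with h hh
    rw [← horb h]
    have h9 := Ring.inverse_mul_cancel _ hh
    have h10 := congrArg (fun A : E →L[ℂ] E => A ⟨T h U, hTE h U U.2⟩) h9
    have h11 : (Ring.inverse (Hil_G E S h)) (Hil_G E S h ⟨T h U, hTE h U U.2⟩)
        = ⟨T h U, hTE h U U.2⟩ := h10
    rw [h11]
    rfl
  refine ⟨U, U.2, hweak, ?_⟩
  rw [contDiff_iff_contDiffAt]
  intro h₀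
  have h1 : (fun h => T h (U : H)) = fun h => T h₀ (T (lh h (-h₀)) (U : H)) := by
    funext h
    rw [hTT, ← lh_lh, Hil_lh', lh_zero_right]
  rw [h1]
  have h2 : ContDiff ℝ (⊤ : ℕ∞) fun h : E5 => lh h (-h₀) :=
    contDiff_lh.comp (contDiff_id.prodMk contDiff_const)
  have h3 : ContDiffAt ℝ (⊤ : ℕ∞) (fun h => T (lh h (-h₀)) (U : H)) h₀ := by
    have h4 : ContDiffAt ℝ (⊤ : ℕ∞) (fun h => T h (U : H)) (lh h₀ (-h₀)) := by
      rw [Hil_lh]
      exact hzero
    exact h4.comp h₀ h2.contDiffAt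
  have h5 : ContDiff ℂ (⊤ : ℕ∞) (T h₀).toContinuousLinearMap :=
    (T h₀).toContinuousLinearMap.contDiff
  exact (h5.restrict_scalars ℝ).contDiffAt.comp h₀ h3

end Pool.Agent.CR5.C
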