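import Pool.Agent.Lib.CR5.SpecC

/-!
# CR5, C/Low: lower bound on EE
-/

open MeasureTheory Set Filter Topology
open scoped ENNReal ComplexConjugate FourierTransform

noncomputable section

namespace Pool.Agent.CR5.C

private theorem norm_sq_ae (v : H2) (f : E5 → ℂ) (h : (v : E5 → ℂ) =ᵐ[volume] f) :
    ‖v‖ ^ 2 = ∫ x, ‖f x‖ ^ 2 := by
  have h1 : ((‖v‖ ^ 2 : ℝ) : ℂ) = ((∫ x, ‖f x‖ ^ 2 : ℝ) : ℂ) := by
    rw [← integral_complex_ofReal, Complex.ofReal_pow]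
    have h2 : ((‖v‖ : ℂ)) ^ 2 = inner ℂ v v := (inner_self_eq_norm_sq_to_K v).symm
    rw [h2, L2.inner_def]
    apply integral_congr_ae
    filter_upwards [h] with x hx
    rw [hx, inner_self_eq_norm_sq_to_K]
    push_cast
    rfl
  exact_mod_cast h1

private theorem tst_Jf {f : E5 → ℂ} (hf : Tst f) (k : Fin 6) : Tst (Jf f k) := by
  unfold Jf
  split_ifs
  · exact hf
  · exact hf.L smS_a0 0
  · exact hf.L smS_a0 1
  · exact hf.Lb smS_a0 0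
  · exact hf.Lb smS_a0 1
  · exact hf.pd 4

theorem pLow (h1 : S_Coe) (h2 : S_SSb) (h3 : S_EEb) : S_Low := by
  obtain ⟨ε, hε, hC⟩ := h1
  obtain ⟨-, hP, -, hJ, -⟩ := h3
  refine ⟨ε, hε, fun a ha e he he1 => ?_⟩
  obtain ⟨c, hc, hcw⟩ := hC a ha e he he1
  obtain ⟨-, -, hS⟩ := h2 a 2 ε ha e he
  refine ⟨Real.sqrt c, Real.sqrt_pos.2 hc, ?_⟩
  refine hP (fun u => Real.sqrt c * ‖u‖ ≤ ‖SS a e 0 u‖) ?_ ?_
  · exact isClosed_le (continuous_const.mul continuous_norm)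
      ((SS a e 0).continuous.norm)
  · intro w hw
    obtain ⟨s0, s1, s2, s3, s4, s5⟩ := hS (JJ w) w (fun j => (hw j).sm) (hJ w hw)
    have hn : ‖JJ w‖ ^ 2 = ∑ p : Fin 2 × Fin 6, ∫ x, ‖Jf (w p.1) p.2 x‖ ^ 2 := by
      rw [PiLp.norm_sq_eq_of_L2]
      exact Finset.sum_congr rfl fun p _ => norm_sq_ae _ _ (hJ w hw p)
    have hsq : ∀ v : H2, ‖(Real.sqrt e : ℂ) • v‖ ^ 2 = e * ‖v‖ ^ 2 := by
      intro v
      rw [norm_smul, mul_pow, Complex.norm_real, Real.norm_of_nonneg (Real.sqrt_nonneg e),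
        Real.sq_sqrt he.le]
    have hw0 : ∀ j, ‖JJ w (j, 0)‖ ^ 2 = ∫ x, ‖w j x‖ ^ 2 := by
      intro j
      have := norm_sq_ae _ _ (hJ w hw (j, 0))
      simpa [Jf] using this
    have hw5 : ∀ j, ‖JJ w (j, 5)‖ ^ 2 = ∫ x, ‖pd 4 (w j) x‖ ^ 2 := by
      intro j
      have := norm_sq_ae _ _ (hJ w hw (j, 5))
      simpa [Jf] using this
    have hn2 : ‖SS a e 0 (JJ w)‖ ^ 2 = (∫ x, ‖D0s a w x‖ ^ 2) + (∫ x, ‖D1 a w x‖ ^ 2)
        + e * ∑ j, ((∫ x, ‖w j x‖ ^ 2) + ∫ x, ‖pd 4 (w j) x‖ ^ 2) := by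
      rw [PiLp.norm_sq_eq_of_L2, Fin.sum_univ_six, norm_sq_ae _ _ s0, norm_sq_ae _ _ s1, s2, s3, s4,
        s5, hsq, hsq, hsq, hsq, hw0, hw0, hw5, hw5, Fin.sum_univ_two]
      ring
    have hfin := hcw w hw
    rw [← hn, ← hn2] at hfin
    have h5 : (Real.sqrt c * ‖JJ w‖) ^ 2 ≤ ‖SS a e 0 (JJ w)‖ ^ 2 := by
      rw [mul_pow, Real.sq_sqrt hc.le]
      exact hfin
    exact (pow_le_pow_iff_left₀ (by positivity) (norm_nonneg _) (by norm_num)).1 h5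

end Pool.Agent.CR5.C
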