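import Pool.Agent.Lib.CR5.SpecC

/-!
# CR5, block C: rules for the multiplication operators
-/

open MeasureTheory Set Filter Topology
open scoped ENNReal ComplexConjugate

noncomputable section

namespace Pool.Agent.CR5.C

private theorem MuB_add {c d : E5 → ℂ} (hc : Bc c) (hd : Bc d) : Bc (fun x => c x + d x) := by
  obtain ⟨h1, C, hC⟩ := hc
  obtain ⟨h2, D, hD⟩ := hd
  exact ⟨h1.add h2, C + D, fun x => (norm_add_le _ _).trans (add_le_add (hC x) (hD x))⟩

private theorem MuB_smul (r : ℂ) {c : E5 → ℂ} (hc : Bc c) : Bc (fun x => r * c x) := by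
  obtain ⟨h1, C, hC⟩ := hc
  refine ⟨continuous_const.mul h1, ‖r‖ * C, fun x => ?_⟩
  rw [norm_mul]
  exact mul_le_mul_of_nonneg_left (hC x) (norm_nonneg _)

private theorem MuB_lh {c : E5 → ℂ} (h : E5) (hc : Bc c) : Bc (fun x => c (lh h x)) := by
  obtain ⟨h1, C, hC⟩ := hc
  exact ⟨h1.comp (continuous_lh h), C, fun x => hC _⟩

theorem pMuB : S_MuB := by
  refine ⟨fun c C hc hC hb => ?_, fun c d hc hd => ?_, fun r c hc => ?_,
    fun c h hc => MuB_lh h hc, fun c h u hc => ?_⟩
  · refine ContinuousLinearMap.opNorm_le_bound _ hC fun u => ?_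
    refine Lp.norm_le_mul_norm_of_ae_le_mul ?_
    filter_upwards [Mu_coe hc u] with x hx
    rw [hx, norm_mul]
    exact mul_le_mul_of_nonneg_right (hb x) (norm_nonneg _)
  · ext1 u
    apply Lp.ext
    have h1 := Mu_coe (MuB_add hc hd) u
    have h2 := Mu_coe hc u
    have h3 := Mu_coe hd u
    have h4 := Lp.coeFn_add (Mu c u) (Mu d u)
    filter_upwards [h1, h2, h3, h4] with x h1 h2 h3 h4
    rw [ContinuousLinearMap.add_apply, h1, h4, Pi.add_apply, h2, h3, add_mul]
  · ext1 u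
    apply Lp.ext
    have h1 := Mu_coe (MuB_smul r hc) u
    have h2 := Mu_coe hc u
    have h4 := Lp.coeFn_smul r (Mu c u)
    filter_upwards [h1, h2, h4] with x h1 h2 h4
    rw [ContinuousLinearMap.smul_apply, h1, h4, Pi.smul_apply, h2, smul_eq_mul, mul_assoc]
  · apply Lp.ext
    have h1 := Mu_coe (MuB_lh h hc) (Tt h u)
    have h2 := Tt_coe h u
    have h3 := Tt_coe h (Mu c u)
    have h4 := (mp_lh h).quasiMeasurePreserving.ae (Mu_coe hc u)
    filter_upwards [h1, h2, h3, h4] with x h1 h2 h3 h4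
    rw [h1, h2, h3, h4]

end Pool.Agent.CR5.C
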