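import Pool.Agent.Lib.CR5.SpecC

/-!
# CR5, block C: test functions are smooth vectors in the space of square integrable functions
-/

open MeasureTheory Set Filter Topology
open scoped ENNReal ComplexConjugate

noncomputable section

namespace Pool.Agent.CR5.C

private theorem OrbL2_deriv {V : Type*} [NormedAddCommGroup V] [NormedSpace ℝ V] {F : E5 → V}
    {D : E5 →L[ℝ] V} {C : ℝ} (h : ∀ k : E5, ‖k‖ ≤ 1 → ‖F k - F 0 - D k‖ ≤ C * ‖k‖ ^ 2) :
    HasFDerivAt F D 0 := by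
  rw [hasFDerivAt_iff_isLittleO_nhds_zero]
  have h1 : (fun k : E5 => F (0 + k) - F 0 - D k) =O[𝓝 0] fun k => ‖k‖ ^ 2 := by
    refine Asymptotics.IsBigO.of_bound C ?_
    filter_upwards [Metric.closedBall_mem_nhds (0 : E5) one_pos] with k hk
    rw [zero_add, Real.norm_eq_abs, abs_of_nonneg (sq_nonneg ‖k‖)]
    exact h k (by simpa using hk)
  exact h1.trans_isLittleO (Asymptotics.isLittleO_norm_pow_id one_lt_two)

private theorem OrbL2_Zf (i : Fin 5) (f : E5 → ℂ) (hf : Tst f) : Tst (Zf i f) :=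
  (hf.pd i).add (Tst.mul_left (Sm.ofReal (contDiff_zco i)) (hf.pd 4))

theorem pOrbL2 (h1 : S_AbsOrb) (h2 : S_Tay) : S_OrbL2 := by
  intro f hf
  refine h1 H2 (fun h => (Tt h).toContinuousLinearMap.restrictScalars ℝ)
    (fun h k v => Tt_Tt h k v) Tst cl OrbL2_Zf ?_ f hf
  intro f hf
  obtain ⟨M, R, hM, hR, hMR⟩ := h2 f hf
  have hfin : volume (Metric.ball (0 : E5) R) ≠ ⊤ := measure_ball_lt_top.ne
  refine OrbL2_deriv
    (C := M * volume.real (Metric.ball (0 : E5) R) ^ (1 / (2 : ℝ≥0∞).toReal)) fun k hk => ?_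
  have hD : (∑ i, (EuclideanSpace.proj i : E5 →L[ℝ] ℝ).smulRight (cl (Zf i f))) k
      = ∑ i, k i • cl (Zf i f) := by
    rw [ContinuousLinearMap.sum_apply]
    rfl
  rw [hD]
  show ‖Tt k (cl f) - Tt 0 (cl f) - ∑ i, k i • cl (Zf i f)‖ ≤ _
  rw [Tt_zero]
  have hc : ‖((M * ‖k‖ ^ 2 : ℝ) : ℂ)‖ = M * ‖k‖ ^ 2 := by
    rw [Complex.norm_real, Real.norm_eq_abs, abs_of_nonneg (by positivity)]
  have hn := norm_indicatorConstLp (p := (2 : ℝ≥0∞)) (hs := measurableSet_ball) (hμs := hfin)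
    (c := ((M * ‖k‖ ^ 2 : ℝ) : ℂ)) (by norm_num) (by norm_num)
  refine (Lp.norm_le_norm_of_ae_le
    (g := indicatorConstLp 2 measurableSet_ball hfin ((M * ‖k‖ ^ 2 : ℝ) : ℂ)) ?_).trans
    (le_of_eq ?_)
  · have a1 := Lp.coeFn_sub (Tt k (cl f) - cl f) (∑ i, k i • cl (Zf i f))
    have a2 := Lp.coeFn_sub (Tt k (cl f)) (cl f)
    have a3 := Lp.coeFn_finsetSum Finset.univ (fun i : Fin 5 => k i • cl (Zf i f))
    have a4 : ∀ᵐ x ∂volume, ∀ i : Fin 5, (k i • cl (Zf i f) : H2) x = (k i : ℂ) * Zf i f x := by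
      rw [ae_all_iff]
      intro i
      have b1 := Lp.coeFn_smul (k i) (cl (Zf i f))
      have b2 := cl_coe (OrbL2_Zf i f hf).memLp
      filter_upwards [b1, b2] with x b1 b2
      rw [b1, Pi.smul_apply, b2, Complex.real_smul]
    have a5 := Tt_coe k (cl f)
    have a6 := cl_coe hf.memLp
    have a7 := (mp_lh k).quasiMeasurePreserving.ae (cl_coe hf.memLp)
    have a8 := indicatorConstLp_coeFn (p := (2 : ℝ≥0∞)) (hs := measurableSet_ball) (hμs := hfin)
      (c := ((M * ‖k‖ ^ 2 : ℝ) : ℂ))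
    filter_upwards [a1, a2, a3, a4, a5, a6, a7, a8] with x a1 a2 a3 a4 a5 a6 a7 a8
    rw [a1, a8, Pi.sub_apply, a2, Pi.sub_apply, a3, Finset.sum_apply, a5, a6, a7]
    simp only [a4]
    obtain ⟨c1, c2⟩ := hMR k x hk
    by_cases hx : x ∈ Metric.ball (0 : E5) R
    · rw [indicator_of_mem hx, hc]
      exact c1
    · rw [indicator_of_notMem hx]
      obtain ⟨d1, d2, d3⟩ := c2 (by
        rw [mem_ball_zero_iff, not_lt] at hx
        exact hx)
      rw [d1, d2]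
      simp only [d3, mul_zero, Finset.sum_const_zero, sub_zero]
      exact le_rfl
  · rw [hn, hc]
    ring

end Pool.Agent.CR5.C
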