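import Pool.Agent.Lib.CR5.SpecC

/-!
# CR5, block C: translated multiplication operators depend smoothly on the translation
-/

open MeasureTheory Set Filter Topology
open scoped ENNReal ComplexConjugate

noncomputable section

namespace Pool.Agent.CR5.C

private theorem OrbMu_deriv {V : Type*} [NormedAddCommGroup V] [NormedSpace ℝ V] {F : E5 → V}
    {D : E5 →L[ℝ] V} {C : ℝ} (h : ∀ k : E5, ‖k‖ ≤ 1 → ‖F k - F 0 - D k‖ ≤ C * ‖k‖ ^ 2) :
    HasFDerivAt F D 0 := by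
  rw [hasFDerivAt_iff_isLittleO_nhds_zero]
  have h1 : (fun k : E5 => F (0 + k) - F 0 - D k) =O[𝓝 0] fun k => ‖k‖ ^ 2 := by
    refine Asymptotics.IsBigO.of_bound C ?_
    filter_upwards [Metric.closedBall_mem_nhds (0 : E5) one_pos] with k hk
    rw [zero_add, Real.norm_eq_abs, abs_of_nonneg (sq_nonneg ‖k‖)]
    exact h k (by simpa using hk)
  exact h1.trans_isLittleO (Asymptotics.isLittleO_norm_pow_id one_lt_two)

private theorem OrbMu_Zf (i : Fin 5) (f : E5 → ℂ) (hf : Tst f) : Tst (Zf i f) :=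
  (hf.pd i).add (Tst.mul_left (Sm.ofReal (contDiff_zco i)) (hf.pd 4))

private theorem OrbMu_Zfc (i : Fin 5) (c : E5 → ℂ) (c0 : ℂ) :
    Zf i (fun x => c x - c0) = Zf i c := by
  funext x
  have h : ∀ i, pd i (fun x => c x - c0) x = pd i c x := fun i => by
    unfold pd
    rw [fderiv_sub_const]
  show pd i (fun x => c x - c0) x + (zco i x : ℂ) * pd 4 (fun x => c x - c0) x
    = pd i c x + (zco i x : ℂ) * pd 4 c x
  rw [h, h]

private theorem OrbMu_CT (i : Fin 5) (c : E5 → ℂ) (hc : CT c) : CT (Zf i c) := by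
  obtain ⟨c0, h⟩ := hc
  refine ⟨0, ?_⟩
  have := OrbMu_Zf i _ h
  rw [OrbMu_Zfc] at this
  simpa using this

private theorem OrbMu_Bc {c : E5 → ℂ} (hc : CT c) : Bc c := by
  obtain ⟨c0, h⟩ := hc
  obtain ⟨C, hC⟩ := h.cs.exists_bound_of_continuous h.sm.cont
  have e : c = fun x => (c x - c0) + c0 := by funext x; ring
  refine ⟨?_, C + ‖c0‖, fun x => ?_⟩
  · rw [e]
    exact h.sm.cont.add continuous_const
  · have h1 : ‖c x‖ = ‖(c x - c0) + c0‖ := by rw [sub_add_cancel]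
    rw [h1]
    exact (norm_add_le _ _).trans (by linarith [hC x])

/-- Conjugation with a translation. -/
private def OrbMu_tau (h : E5) : (H2 →L[ℂ] H2) →L[ℝ] (H2 →L[ℂ] H2) :=
  (((ContinuousLinearMap.compL ℂ H2 H2 H2) (Tt h).toContinuousLinearMap).comp
    ((ContinuousLinearMap.compL ℂ H2 H2 H2).flip
      (Tt (-h)).toContinuousLinearMap)).restrictScalars ℝ

private theorem OrbMu_tau_apply (h : E5) (A : H2 →L[ℂ] H2) (u : H2) :
    OrbMu_tau h A u = Tt h (A (Tt (-h) u)) := rfl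

private theorem OrbMu_tau_tau (h k : E5) (A : H2 →L[ℂ] H2) :
    OrbMu_tau h (OrbMu_tau k A) = OrbMu_tau (lh k h) A := by
  ext1 u
  rw [OrbMu_tau_apply, OrbMu_tau_apply, OrbMu_tau_apply, Tt_Tt, Tt_Tt]
  have e : lh (-h) (-k) = -lh k h := by
    have e1 : om (-h) (-k) = -om k h := by simp [om]; ring
    simp only [lh, e1]
    module
  rw [e]

theorem pOrbMu (h1 : S_AbsOrb) (h2 : S_Tay) (h3 : S_MuB) : S_OrbMu := by
  obtain ⟨m1, m2, m3, m4, m5⟩ := h3
  have key : ∀ (h : E5) (c : E5 → ℂ), CT c → OrbMu_tau h (Mu c) = Mu fun x => c (lh h x) := by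
    intro h c hc
    ext1 u
    rw [OrbMu_tau_apply, ← m5 c h _ (OrbMu_Bc hc), Tt_Tt_neg]
  intro c hc
  have main := h1 (H2 →L[ℂ] H2) OrbMu_tau OrbMu_tau_tau CT Mu OrbMu_CT ?_ c hc
  · have e : (fun h => OrbMu_tau h (Mu c)) = fun h => Mu fun x => c (lh h x) :=
      funext fun h => key h c hc
    rwa [e] at main
  clear c hc
  intro c hc
  obtain ⟨c0, hf⟩ := hc
  have hc : CT c := ⟨c0, hf⟩
  obtain ⟨M, R, hM, hR, hMR⟩ := h2 _ hf
  refine OrbMu_deriv (C := M) fun k hk => ?_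
  have hD : (∑ i, (EuclideanSpace.proj i : E5 →L[ℝ] ℝ).smulRight (Mu (Zf i c))) k
      = ∑ i, k i • Mu (Zf i c) := by
    rw [ContinuousLinearMap.sum_apply]
    rfl
  rw [hD]
  show ‖OrbMu_tau k (Mu c) - OrbMu_tau 0 (Mu c) - ∑ i, k i • Mu (Zf i c)‖ ≤ _
  have e0 : (fun x => c (lh 0 x)) = c := by funext x; rw [lh_zero_left]
  rw [key k c hc, key 0 c hc, e0]
  refine ContinuousLinearMap.opNorm_le_bound _ (by positivity) fun u => ?_
  refine Lp.norm_le_mul_norm_of_ae_le_mul ?_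
  have hv : (Mu (fun x => c (lh k x)) - Mu c - ∑ i, k i • Mu (Zf i c)) u
      = Mu (fun x => c (lh k x)) u - Mu c u - ∑ i, k i • Mu (Zf i c) u := by
    rw [ContinuousLinearMap.sub_apply, ContinuousLinearMap.sub_apply,
      ContinuousLinearMap.sum_apply]
    rfl
  rw [hv]
  have a1 := Lp.coeFn_sub (Mu (fun x => c (lh k x)) u - Mu c u) (∑ i, k i • Mu (Zf i c) u)
  have a2 := Lp.coeFn_sub (Mu (fun x => c (lh k x)) u) (Mu c u)
  have a3 := Lp.coeFn_finsetSum Finset.univ (fun i : Fin 5 => k i • Mu (Zf i c) u)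
  have a4 : ∀ᵐ x ∂volume, ∀ i : Fin 5,
      (k i • Mu (Zf i c) u : H2) x = (k i : ℂ) * (Zf i c x * u x) := by
    rw [ae_all_iff]
    intro i
    have b1 := Lp.coeFn_smul (k i) (Mu (Zf i c) u)
    have b2 := Mu_coe (OrbMu_Bc (OrbMu_CT i c hc)) u
    filter_upwards [b1, b2] with x b1 b2
    rw [b1, Pi.smul_apply, b2, Complex.real_smul]
  have a5 := Mu_coe (m4 c k (OrbMu_Bc hc)) u
  have a6 := Mu_coe (OrbMu_Bc hc) u
  filter_upwards [a1, a2, a3, a4, a5, a6] with x a1 a2 a3 a4 a5 a6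
  rw [a1, Pi.sub_apply, a2, Pi.sub_apply, a3, Finset.sum_apply, a5, a6]
  simp only [a4]
  obtain ⟨c1, -⟩ := hMR k x hk
  simp only [OrbMu_Zfc] at c1
  have e : c (lh k x) * u x - c x * u x - ∑ i, (k i : ℂ) * (Zf i c x * u x)
      = (c (lh k x) - c0 - (c x - c0) - ∑ i, (k i : ℂ) * Zf i c x) * u x := by
    rw [sub_mul, Finset.sum_mul]
    simp only [mul_assoc]
    ring
  rw [e, norm_mul]
  exact mul_le_mul_of_nonneg_right c1 (norm_nonneg _)

end Pool.Agent.CR5.C
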