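import Pool.Agent.Lib.CR5.SpecC

/-!
# CR5, block C: patching (statement `S_Pat`)
-/

open MeasureTheory Set Filter Topology
open scoped ENNReal ComplexConjugate

noncomputable section

namespace Pool.Agent.CR5.C

/-- the bumps -/
def Pat_b (n : ℕ) : ContDiffBump (0 : E5) :=
  ⟨(n : ℝ) + 1, (n : ℝ) + 2, by positivity, by linarith⟩

/-- complex valued -/
def Pat_c (n : ℕ) (x : E5) : ℂ := ((Pat_b n x : ℝ) : ℂ)

theorem Pat_tst (n : ℕ) : Tst (Pat_c n) :=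
  ⟨Sm.ofReal (Pat_b n).contDiff,
    (Pat_b n).hasCompactSupport.comp_left (g := fun r : ℝ => (r : ℂ)) Complex.ofReal_zero⟩

theorem Pat_one {n : ℕ} {x : E5} (h : ‖x‖ < (n : ℝ) + 1) : Pat_c n x = 1 := by
  unfold Pat_c
  have h1 : x ∈ Metric.closedBall (0 : E5) (Pat_b n).rIn := by
    rw [Metric.mem_closedBall, dist_zero_right]
    exact h.le
  rw [(Pat_b n).one_of_mem_closedBall h1]
  simp

theorem pPat : S_Pat := by
  intro u hu
  choose g hg hgu using fun n => hu (Pat_c n) (Pat_tst n)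
  have key : ∀ k n : ℕ, k ≤ n → ∀ x : E5, ‖x‖ < (k : ℝ) + 1 → g k x = g n x := by
    intro k n hkn
    have h1 : g k =ᵐ[volume.restrict (Metric.ball (0 : E5) ((k : ℝ) + 1))] g n := by
      rw [Filter.EventuallyEq, ae_restrict_iff' measurableSet_ball]
      filter_upwards [hgu k, hgu n] with x h1 h2 hx
      rw [Metric.mem_ball, dist_zero_right] at hx
      have hkn' : (k : ℝ) ≤ (n : ℝ) := by exact_mod_cast hkn
      rw [← h1, ← h2, Pat_one hx, Pat_one (by linarith)]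
    have h2 := Measure.eqOn_open_of_ae_eq h1 Metric.isOpen_ball (hg k).cont.continuousOn
      (hg n).cont.continuousOn
    intro x hx
    exact h2 (by rw [Metric.mem_ball, dist_zero_right]; exact hx)
  have hfl : ∀ x : E5, ‖x‖ < (⌊‖x‖⌋₊ : ℝ) + 1 := fun x => Nat.lt_floor_add_one _
  have hloc : ∀ (n : ℕ) (x : E5), ‖x‖ < (n : ℝ) + 1 → g ⌊‖x‖⌋₊ x = g n x := by
    intro n x hx
    apply key _ _ _ _ (hfl x)
    have h1 : (⌊‖x‖⌋₊ : ℝ) ≤ ‖x‖ := Nat.floor_le (norm_nonneg x)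
    have h2 : (⌊‖x‖⌋₊ : ℝ) < (n : ℝ) + 1 := lt_of_le_of_lt h1 hx
    have h3 : ⌊‖x‖⌋₊ < n + 1 := by exact_mod_cast h2
    omega
  refine ⟨fun x => g ⌊‖x‖⌋₊ x, ?_, ?_⟩
  · show ContDiff ℝ (⊤ : ℕ∞) fun x => g ⌊‖x‖⌋₊ x
    rw [contDiff_iff_contDiffAt]
    intro x
    have ho : IsOpen {y : E5 | ‖y‖ < (⌊‖x‖⌋₊ : ℝ) + 1} :=
      isOpen_lt continuous_norm continuous_const
    refine ContDiffAt.congr_of_eventuallyEq ((hg ⌊‖x‖⌋₊).contDiff.contDiffAt) ?_
    filter_upwards [ho.mem_nhds (hfl x)] with y hy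
    exact hloc _ y hy
  · have hall : ∀ᵐ x ∂(volume : Measure E5), ∀ n : ℕ, Pat_c n x * u x = g n x :=
      ae_all_iff.2 hgu
    filter_upwards [hall] with x hx
    rw [← hx, Pat_one (hfl x), one_mul]

end Pool.Agent.CR5.C
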