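import Pool.Agent.Lib.CR5.SpecC

/-!
# CR5, C/Rep: smooth vectors are smooth functions
-/

open MeasureTheory Set Filter Topology
open scoped ENNReal ComplexConjugate FourierTransform

noncomputable section

namespace Pool.Agent.CR5.C

theorem pRep (h1 : S_Dec) (h2 : S_Fou) (h3 : S_Pat) : S_Rep := by
  intro u hu
  refine h3 u fun χ hχ => ?_
  refine h2 (fun x => χ x * u x) ?_ (h1 u hu χ hχ)
  exact hχ.memLp.integrable_mul (Lp.memLp u)

end Pool.Agent.CR5.C
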