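import Pool.Agent.Lib.CR5.SpecC

/-!
# CR5, block C, SSb: the operators `SS a e h`
-/

set_option autoImplicit false

open MeasureTheory Set Filter Topology
open scoped ENNReal ComplexConjugate

noncomputable section

namespace Pool.Agent.CR5.C

theorem SSb_comp_right {F G H : Type} [NormedAddCommGroup F] [NormedSpace ℂ F]
    [NormedAddCommGroup G] [NormedSpace ℂ G] [NormedAddCommGroup H] [NormedSpace ℂ H]
    (B : H →L[ℂ] F) {f : E5 → F →L[ℂ] G} (hf : ContDiff ℝ (⊤ : ℕ∞) f) :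
    ContDiff ℝ (⊤ : ℕ∞) fun h => (f h).comp B :=
  (((ContinuousLinearMap.compL ℂ H F G).flip B).restrictScalars ℝ).contDiff.comp hf

theorem SSb_comp_left {F G H : Type} [NormedAddCommGroup F] [NormedSpace ℂ F]
    [NormedAddCommGroup G] [NormedSpace ℂ G] [NormedAddCommGroup H] [NormedSpace ℂ H]
    (B : F →L[ℂ] G) {f : E5 → H →L[ℂ] F} (hf : ContDiff ℝ (⊤ : ℕ∞) f) :
    ContDiff ℝ (⊤ : ℕ∞) fun h => B.comp (f h) :=
  ((ContinuousLinearMap.compL ℂ H F G B).restrictScalars ℝ).contDiff.comp hf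

theorem SSb_bc {c : E5 → ℂ} (h : CT c) : Bc c := by
  obtain ⟨c0, h⟩ := h
  obtain ⟨C, hC⟩ := h.cs.exists_bound_of_continuous h.sm.cont
  refine ⟨?_, C + ‖c0‖, fun x => ?_⟩
  · have := h.sm.cont.add (continuous_const (y := c0))
    refine this.congr fun x => ?_
    show c x - c0 + c0 = c x
    ring
  · have h1 := norm_add_le (c x - c0) c0
    rw [sub_add_cancel] at h1
    have := hC x
    linarith

theorem SSb_Sop_smooth (h1 : S_OrbMu) (q : Fin 2 × Fin 6 → E5 → ℂ) (hq : ∀ p, CT (q p)) :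
    ContDiff ℝ (⊤ : ℕ∞) (Sop q) := by
  unfold Sop
  exact ContDiff.sum fun p _ => SSb_comp_right _ (h1 (q p) (hq p))

theorem SSb_SSc_smooth (h1 : S_OrbMu) (a : Str) (e : ℝ) (hq0 : ∀ p, CT (q0 a p))
    (hq1 : ∀ p, CT (q1 a p)) (k : Fin 6) : ContDiff ℝ (⊤ : ℕ∞) fun h => SSc a e h k := by
  unfold SSc
  split_ifs
  · exact SSb_Sop_smooth h1 _ hq0
  · exact SSb_Sop_smooth h1 _ hq1
  · exact contDiff_const
  · exact contDiff_const
  · exact contDiff_const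
  · exact contDiff_const

/-- the inclusion of a factor -/
def SSb_inc (k : Fin 6) : H2 →L[ℂ] HK :=
  (PiLp.continuousLinearEquiv 2 ℂ (fun _ : Fin 6 => H2)).symm.toContinuousLinearMap.comp
    (ContinuousLinearMap.single ℂ (fun _ : Fin 6 => H2) k)

theorem SSb_inc_apply (k i : Fin 6) (y : H2) : SSb_inc k y i = if i = k then y else 0 := by
  show (Pi.single k y : Fin 6 → H2) i = _
  rw [Pi.single_apply]

theorem SSb_sum (a : Str) (e : ℝ) (h : E5) : SS a e h = ∑ k, (SSb_inc k).comp (SSc a e h k) := by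
  ext1 u
  ext1 i
  rw [SS_apply, ContinuousLinearMap.sum_apply]
  have h1 : ∀ (s : Finset (Fin 6)) (g : Fin 6 → HK), (∑ k ∈ s, g k) i = ∑ k ∈ s, g k i := by
    intro s g
    exact map_sum (PiLp.proj 2 (𝕜 := ℂ) (fun _ : Fin 6 => H2) i) g s
  rw [h1]
  simp only [ContinuousLinearMap.comp_apply, SSb_inc_apply]
  simp

theorem SSb_smooth (h1 : S_OrbMu) (a : Str) (e : ℝ) (hq0 : ∀ p, CT (q0 a p))
    (hq1 : ∀ p, CT (q1 a p)) : ContDiff ℝ (⊤ : ℕ∞) (SS a e) := by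
  have h2 : SS a e = fun h => ∑ k, (SSb_inc k).comp (SSc a e h k) := by
    funext h
    exact SSb_sum a e h
  rw [h2]
  exact ContDiff.sum fun k _ => SSb_comp_left _ (SSb_SSc_smooth h1 a e hq0 hq1 k)

theorem SSb_Sop_apply (q : Fin 2 × Fin 6 → E5 → ℂ) (h : E5) (u : HH) :
    Sop q h u = ∑ p, Mu (fun x => q p (lh h x)) (u p) := by
  rw [Sop, ContinuousLinearMap.sum_apply]
  rfl

theorem SSb_Sop_cov (h2 : S_MuB) (q : Fin 2 × Fin 6 → E5 → ℂ) (hq : ∀ p, CT (q p)) (h : E5)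
    (u : HH) : Sop q h (TH h u) = Tt h (Sop q 0 u) := by
  rw [SSb_Sop_apply, SSb_Sop_apply, map_sum]
  refine Finset.sum_congr rfl fun p _ => ?_
  rw [TP_apply, h2.2.2.2.2 (q p) h (u p) (SSb_bc (hq p))]
  simp only [lh_zero_left]

theorem SSb_cov (h2 : S_MuB) (a : Str) (e : ℝ) (hq0 : ∀ p, CT (q0 a p))
    (hq1 : ∀ p, CT (q1 a p)) (h : E5) (u : HH) :
    SS a e h (TH h u) = TP (Fin 6) h (SS a e 0 u) := by
  ext1 k
  rw [SS_apply, TP_apply, SS_apply]
  unfold SSc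
  split_ifs
  · exact SSb_Sop_cov h2 _ hq0 h u
  · exact SSb_Sop_cov h2 _ hq1 h u
  · simp only [ContinuousLinearMap.smul_apply, map_smul]; rfl
  · simp only [ContinuousLinearMap.smul_apply, map_smul]; rfl
  · simp only [ContinuousLinearMap.smul_apply, map_smul]; rfl
  · simp only [ContinuousLinearMap.smul_apply, map_smul]; rfl

theorem SSb_Sop_val (q : Fin 2 × Fin 6 → E5 → ℂ) (hq : ∀ p, CT (q p)) (u : HH) (w : F2)
    (hu : ∀ p, (u p : E5 → ℂ) =ᵐ[volume] Jf (w p.1) p.2) :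
    (Sop q 0 u : E5 → ℂ) =ᵐ[volume] fun x => ∑ p, q p x * Jf (w p.1) p.2 x := by
  rw [SSb_Sop_apply]
  have h1 := Lp.coeFn_finsetSum (Finset.univ : Finset (Fin 2 × Fin 6))
    (fun p => Mu (fun x => q p (lh 0 x)) (u p))
  refine h1.trans ?_
  have h3 : ∀ᵐ x ∂(volume : Measure E5), ∀ p : Fin 2 × Fin 6,
      (Mu (fun x => q p (lh 0 x)) (u p) : E5 → ℂ) x = q p x * Jf (w p.1) p.2 x := by
    rw [ae_all_iff]
    intro p
    simp only [lh_zero_left]
    filter_upwards [Mu_coe (SSb_bc (hq p)) (u p), hu p] with x h4 h5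
    rw [h4, h5]
  filter_upwards [h3] with x hx
  rw [Finset.sum_apply]
  exact Finset.sum_congr rfl fun p _ => hx p

theorem pSSb (h1 : S_OrbMu) (h2 : S_MuB) (h3 : S_Exp) : S_SSb := by
  intro a m ε ha e he
  obtain ⟨_, _, e0, e1, hq0, hq1⟩ := h3 a m ε ha
  refine ⟨SSb_smooth h1 a e hq0 hq1, SSb_cov h2 a e hq0 hq1, ?_⟩
  intro u w hw hu
  refine ⟨?_, ?_, ?_, ?_, ?_, ?_⟩
  · have h4 := SSb_Sop_val (q0 a) hq0 u w hu
    have h5 : D0s a w = fun x => ∑ p, q0 a p x * Jf (w p.1) p.2 x := by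
      funext x; exact e0 w hw x
    rw [h5]
    exact h4
  · have h4 := SSb_Sop_val (q1 a) hq1 u w hu
    have h5 : D1 a w = fun x => ∑ p, q1 a p x * Jf (w p.1) p.2 x := by
      funext x; exact e1 w hw x
    rw [h5]
    exact h4
  · rfl
  · rfl
  · rfl
  · rfl

end Pool.Agent.CR5.C
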