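import Pool.Agent.Lib.CR5.SpecC

/-!
# CR5, block C: infinitesimal translations of smooth vectors
-/

open MeasureTheory Set Filter Topology
open scoped ENNReal ComplexConjugate FourierTransform

noncomputable section

namespace Pool.Agent.CR5.C

private theorem SVZ_emb (h : E5) : MeasurableEmbedding (lh h) := by
  have : MeasurableEmbedding (⟨⟨lh h, lh (-h), lh_neg_lh h, lh_lh_neg h⟩, continuous_lh h,
    continuous_lh (-h)⟩ : E5 ≃ₜ E5) := Homeomorph.measurableEmbedding _
  exact this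

private theorem SVZ_curve (i : Fin 5) (h : E5) (s : ℝ) :
    lh (s • e5 i) h = h + s • (e5 i + zco i h • e5 4) := by
  simp only [lh, om_smul_left, zco_eq]
  module

private theorem SVZ_part1 {u : H2} (hu : SV u) (i : Fin 5) (h : E5) :
    Tt h (fderiv ℝ (fun h => Tt h u) 0 (e5 i))
      = fderiv ℝ (fun h => Tt h u) h (e5 i + zco i h • e5 4) := by
  have hO : Differentiable ℝ (fun h => Tt h u) := ContDiff.differentiable hu (by norm_num)
  have h1 : HasDerivAt (fun s : ℝ => Tt (s • e5 i) u)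
      (fderiv ℝ (fun h => Tt h u) 0 (e5 i)) 0 := by
    have h0 : HasFDerivAt (fun h => Tt h u) (fderiv ℝ (fun h => Tt h u) ((0 : ℝ) • e5 i))
        ((0 : ℝ) • e5 i) := (hO _).hasFDerivAt
    have h2 : HasDerivAt (fun s : ℝ => s • e5 i) (e5 i) 0 := by
      simpa using (hasDerivAt_id (0 : ℝ)).smul_const (e5 i)
    have := h0.comp_hasDerivAt (0 : ℝ) h2
    rw [zero_smul] at this
    exact this
  have h3 : HasDerivAt (fun s : ℝ => Tt h (Tt (s • e5 i) u))
      (Tt h (fderiv ℝ (fun h => Tt h u) 0 (e5 i))) 0 := by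
    have hl : HasFDerivAt (fun v : H2 => Tt h v)
        ((Tt h).toContinuousLinearMap.restrictScalars ℝ) (Tt ((0 : ℝ) • e5 i) u) :=
      ((Tt h).toContinuousLinearMap.restrictScalars ℝ).hasFDerivAt
    exact hl.comp_hasDerivAt (0 : ℝ) h1
  have h4 : HasDerivAt (fun s : ℝ => Tt h (Tt (s • e5 i) u))
      (fderiv ℝ (fun h => Tt h u) h (e5 i + zco i h • e5 4)) 0 := by
    have e : (fun s : ℝ => Tt h (Tt (s • e5 i) u))
        = fun s : ℝ => (fun h => Tt h u) (h + s • (e5 i + zco i h • e5 4)) := by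
      funext s
      rw [Tt_Tt, SVZ_curve]
    rw [e]
    have h0 : HasFDerivAt (fun h => Tt h u)
        (fderiv ℝ (fun h => Tt h u) (h + (0 : ℝ) • (e5 i + zco i h • e5 4)))
        (h + (0 : ℝ) • (e5 i + zco i h • e5 4)) := (hO _).hasFDerivAt
    have h2 : HasDerivAt (fun s : ℝ => h + s • (e5 i + zco i h • e5 4))
        (e5 i + zco i h • e5 4) 0 := by
      simpa using ((hasDerivAt_id (0 : ℝ)).smul_const (e5 i + zco i h • e5 4)).const_add h
    have := h0.comp_hasDerivAt (0 : ℝ) h2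
    rw [zero_smul, add_zero] at this
    exact this
  exact h3.unique h4

private theorem SVZ_part2 (h1 : S_Tay) {u : H2} (hu : SV u) (i : Fin 5) {ψ : E5 → ℂ}
    (hψ : Tst ψ) : ∫ x, (fderiv ℝ (fun h => Tt h u) 0 (e5 i) : H2) x * ψ x
      = -∫ x, u x * Zf i ψ x := by
  have hO : Differentiable ℝ (fun h => Tt h u) := ContDiff.differentiable hu (by norm_num)
  set v : H2 := fderiv ℝ (fun h => Tt h u) 0 (e5 i) with hv
  -- the functional
  have hcψ : MemLp (fun x => conj (ψ x)) 2 volume := hψ.conj.memLp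
  have hfun : ∀ w : H2, inner ℂ (cl fun x => conj (ψ x)) w = ∫ x, w x * ψ x := by
    intro w
    rw [L2.inner_def]
    apply integral_congr_ae
    filter_upwards [cl_coe hcψ] with x hx
    rw [hx, RCLike.inner_apply, Complex.conj_conj]
  have h2 : HasDerivAt (fun s : ℝ => Tt (s • e5 i) u) v 0 := by
    have h0 : HasFDerivAt (fun h => Tt h u) (fderiv ℝ (fun h => Tt h u) ((0 : ℝ) • e5 i))
        ((0 : ℝ) • e5 i) := (hO _).hasFDerivAt
    have h2 : HasDerivAt (fun s : ℝ => s • e5 i) (e5 i) 0 := by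
      simpa using (hasDerivAt_id (0 : ℝ)).smul_const (e5 i)
    have := h0.comp_hasDerivAt (0 : ℝ) h2
    rw [zero_smul] at this
    exact this
  have h3 : HasDerivAt (fun s : ℝ => ∫ x, (Tt (s • e5 i) u : H2) x * ψ x)
      (∫ x, v x * ψ x) 0 := by
    have hl : HasFDerivAt (fun w : H2 => (innerSL ℂ (cl fun x => conj (ψ x)) : H2 →L[ℂ] ℂ) w)
        ((innerSL ℂ (cl fun x => conj (ψ x)) : H2 →L[ℂ] ℂ).restrictScalars ℝ)
        (Tt ((0 : ℝ) • e5 i) u) :=
      ((innerSL ℂ (cl fun x => conj (ψ x)) : H2 →L[ℂ] ℂ).restrictScalars ℝ).hasFDerivAt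
    have := hl.comp_hasDerivAt (0 : ℝ) h2
    simp only [Function.comp_def, innerSL_apply_apply, ContinuousLinearMap.coe_restrictScalars',
      hfun] at this
    exact this
  -- change of variables
  have h4 : ∀ s : ℝ, ∫ x, (Tt (s • e5 i) u : H2) x * ψ x
      = ∫ x, u x * ψ (lh (-(s • e5 i)) x) := by
    intro s
    have e1 : ∫ x, (Tt (s • e5 i) u : H2) x * ψ x
        = ∫ x, (fun y => u y * ψ (lh (-(s • e5 i)) y)) (lh (s • e5 i) x) := by
      apply integral_congr_ae
      filter_upwards [Tt_coe (s • e5 i) u] with x hx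
      simp only [hx, lh_neg_lh]
    rw [e1]
    exact (mp_lh (s • e5 i)).integral_comp (SVZ_emb _)
      (fun y => u y * ψ (lh (-(s • e5 i)) y))
  obtain ⟨M, R, hM, hR, hT⟩ := h1 ψ hψ
  have hu2 : MemLp u 2 volume := Lp.memLp u
  have huB : IntegrableOn (fun x => ‖u x‖) (Metric.ball (0 : E5) R) volume := by
    have hfin : IsFiniteMeasure (volume.restrict (Metric.ball (0 : E5) R)) :=
      ⟨by rw [Measure.restrict_apply_univ]; exact measure_ball_lt_top⟩
    have : MemLp u 2 (volume.restrict (Metric.ball (0 : E5) R)) := hu2.restrict _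
    have h5 : Integrable u (volume.restrict (Metric.ball (0 : E5) R)) :=
      this.integrable (by norm_num)
    exact h5.norm
  set B : ℝ := ∫ x in Metric.ball (0 : E5) R, ‖u x‖ with hB
  have hint : ∀ f : E5 → ℂ, Tst f → Integrable (fun x => u x * f x) volume := fun f hf =>
    hu2.integrable_mul hf.memLp
  have hZ : Tst (Zf i ψ) := (hψ.pd i).add (Tst.mul_left (Sm.ofReal (contDiff_zco i)) (hψ.pd 4))
  have hshift : ∀ h : E5, Tst (fun x => ψ (lh h x)) := by
    intro h
    refine ⟨hψ.sm.contDiff.comp (contDiff_lh_right h), ?_⟩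
    exact hψ.cs.comp_homeomorph (⟨⟨lh h, lh (-h), lh_neg_lh h, lh_lh_neg h⟩, continuous_lh h,
      continuous_lh (-h)⟩ : E5 ≃ₜ E5)
  have hsum : ∀ (s : ℝ) (x : E5), ∑ j, (((-(s • e5 i)) j : ℝ) : ℂ) * Zf j ψ x
      = -(s : ℂ) * Zf i ψ x := by
    intro s x
    rw [Finset.sum_eq_single i]
    · simp [e5_apply]
    · intro j _ hj
      simp [e5_apply, hj]
    · simp
  have hnorm : ‖e5 i‖ = 1 := by simp [e5]
  have h5 : ∀ s : ℝ, |s| ≤ 1 →
      ‖(∫ x, u x * ψ (lh (-(s • e5 i)) x)) - (∫ x, u x * ψ x) + (s : ℂ) * ∫ x, u x * Zf i ψ x‖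
        ≤ M * B * s ^ 2 := by
    intro s hs
    have hk : ‖-(s • e5 i)‖ = |s| := by rw [norm_neg, norm_smul, hnorm, mul_one, Real.norm_eq_abs]
    have e1 : (∫ x, u x * ψ (lh (-(s • e5 i)) x)) - (∫ x, u x * ψ x)
        + (s : ℂ) * ∫ x, u x * Zf i ψ x
        = ∫ x, u x * (ψ (lh (-(s • e5 i)) x) - ψ x - -(s : ℂ) * Zf i ψ x) := by
      have I1 : Integrable (fun x => u x * ψ (lh (-(s • e5 i)) x) - u x * ψ x) volume :=
        (hint _ (hshift _)).sub (hint _ hψ)
      rw [← integral_const_mul, ← integral_sub (hint _ (hshift _)) (hint _ hψ),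
        ← integral_add I1 ((hint _ hZ).const_mul _)]
      apply integral_congr_ae
      filter_upwards with x
      ring
    rw [e1]
    have e2 : ∀ x, ‖u x * (ψ (lh (-(s • e5 i)) x) - ψ x - -(s : ℂ) * Zf i ψ x)‖
        ≤ (Metric.ball (0 : E5) R).indicator (fun x => M * s ^ 2 * ‖u x‖) x := by
      intro x
      obtain ⟨h6, h7⟩ := hT (-(s • e5 i)) x (by rw [hk]; exact hs)
      rw [hsum, hk, sq_abs] at h6
      by_cases hx : x ∈ Metric.ball (0 : E5) R
      · rw [indicator_of_mem hx, norm_mul, mul_comm]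
        exact mul_le_mul_of_nonneg_right h6 (norm_nonneg _)
      · have hx' : R ≤ ‖x‖ := by simpa using hx
        obtain ⟨a1, a2, a3⟩ := h7 hx'
        rw [indicator_of_notMem hx, a1, a2, a3 i]
        simp
    calc _ ≤ ∫ x, (Metric.ball (0 : E5) R).indicator (fun x => M * s ^ 2 * ‖u x‖) x := by
          apply norm_integral_le_of_norm_le
          · rw [integrable_indicator_iff Metric.isOpen_ball.measurableSet]
            exact huB.const_mul _
          · filter_upwards with x using e2 x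
      _ = M * B * s ^ 2 := by
          rw [integral_indicator Metric.isOpen_ball.measurableSet, integral_const_mul]
          ring
  have h6 : HasDerivAt (fun s : ℝ => ∫ x, (Tt (s • e5 i) u : H2) x * ψ x)
      (-∫ x, u x * Zf i ψ x) 0 := by
    rw [hasDerivAt_iff_isLittleO]
    have h7 : (fun s : ℝ => (∫ x, (Tt (s • e5 i) u : H2) x * ψ x)
        - (∫ x, (Tt ((0 : ℝ) • e5 i) u : H2) x * ψ x) - (s - 0) • (-∫ x, u x * Zf i ψ x))
        =O[𝓝 0] fun s : ℝ => s ^ 2 := by
      apply Asymptotics.IsBigO.of_bound (M * B)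
      have : ∀ᶠ s : ℝ in 𝓝 0, |s| < 1 := by
        have := Metric.ball_mem_nhds (0 : ℝ) one_pos
        filter_upwards [this] with s hs
        simpa using hs
      filter_upwards [this] with s hs
      have h8 := h5 s hs.le
      have h9 : (∫ x, (Tt (s • e5 i) u : H2) x * ψ x)
        - (∫ x, (Tt ((0 : ℝ) • e5 i) u : H2) x * ψ x) - (s - 0) • (-∫ x, u x * Zf i ψ x)
        = (∫ x, u x * ψ (lh (-(s • e5 i)) x)) - (∫ x, u x * ψ x)
          + (s : ℂ) * ∫ x, u x * Zf i ψ x := by
        rw [h4 s, zero_smul, Tt_zero, sub_zero, smul_neg, Complex.real_smul]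
        ring
      rw [h9, Real.norm_of_nonneg (sq_nonneg s)]
      exact h8
    refine h7.trans_isLittleO ?_
    simp only [sub_zero]
    have := Asymptotics.isLittleO_pow_pow (𝕜 := ℝ) (show 1 < 2 by norm_num)
    simpa using this
  exact h3.unique h6

theorem pSVZ (h1 : S_Tay) (_h2 : S_OrbL2) : S_SVZ := by
  intro u hu i
  refine ⟨?_, fun ψ hψ => SVZ_part2 h1 hu i hψ⟩
  have h3 : (fun h => Tt h (fderiv ℝ (fun h => Tt h u) 0 (e5 i)))
      = fun h => fderiv ℝ (fun h => Tt h u) h (e5 i + zco i h • e5 4) := by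
    funext h
    exact SVZ_part1 hu i h
  show ContDiff ℝ (⊤ : ℕ∞) (fun h => Tt h (fderiv ℝ (fun h => Tt h u) 0 (e5 i)))
  rw [h3]
  have h4 : ContDiff ℝ (⊤ : ℕ∞) (fderiv ℝ (fun h => Tt h u)) :=
    ContDiff.fderiv_right hu (by simp)
  exact h4.clm_apply (contDiff_const.add ((contDiff_zco i).smul contDiff_const))

end Pool.Agent.CR5.C
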