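import Pool.Agent.Lib.CR5.C.Wk

/-!
# CR5, block C: the inductive step
-/

open MeasureTheory Set Filter Topology
open scoped ENNReal ComplexConjugate

noncomputable section

namespace Pool.Agent.CR5.C

namespace Stpx

theorem li (u : H2) : LocallyIntegrable (u : E5 → ℂ) volume :=
  (Lp.memLp u).locallyIntegrable (by norm_num)

theorem pd4z (k : Fin 5) (x : E5) : pd 4 (fun y => ((zco k y : ℝ) : ℂ)) x = 0 := by
  have hc : ∀ i : Fin 5, i ≠ 4 → pd 4 (fun z => (z i : ℂ)) x = 0 := by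
    intro i hi
    unfold pd
    have h : HasFDerivAt (fun y : E5 => ((y i : ℝ) : ℂ))
        (Complex.ofRealCLM.comp (EuclideanSpace.proj i : E5 →L[ℝ] ℝ)) x :=
      Complex.ofRealCLM.hasFDerivAt.comp x (EuclideanSpace.proj i : E5 →L[ℝ] ℝ).hasFDerivAt
    rw [h.fderiv]
    simp [e5, hi]
  have h : ∀ (c : ℂ) (i : Fin 5), i ≠ 4 → pd 4 (fun y => c * (y i : ℂ)) x = 0 := by
    intro c i hi
    rw [pd_const_mul (Sm.coord i), hc i hi, mul_zero]
  fin_cases k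
  · have e : (fun y : E5 => ((zco 0 y : ℝ) : ℂ)) = fun y => (-2 : ℂ) * (y 1 : ℂ) := by
      funext y; simp [zco]
    show pd 4 (fun y => ((zco 0 y : ℝ) : ℂ)) x = 0
    rw [e]; exact h _ _ (by decide)
  · have e : (fun y : E5 => ((zco 1 y : ℝ) : ℂ)) = fun y => (2 : ℂ) * (y 0 : ℂ) := by
      funext y; simp [zco]
    show pd 4 (fun y => ((zco 1 y : ℝ) : ℂ)) x = 0
    rw [e]; exact h _ _ (by decide)
  · have e : (fun y : E5 => ((zco 2 y : ℝ) : ℂ)) = fun y => (-2 : ℂ) * (y 3 : ℂ) := by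
      funext y; simp [zco]
    show pd 4 (fun y => ((zco 2 y : ℝ) : ℂ)) x = 0
    rw [e]; exact h _ _ (by decide)
  · have e : (fun y : E5 => ((zco 3 y : ℝ) : ℂ)) = fun y => (2 : ℂ) * (y 2 : ℂ) := by
      funext y; simp [zco]
    show pd 4 (fun y => ((zco 3 y : ℝ) : ℂ)) x = 0
    rw [e]; exact h _ _ (by decide)
  · have e : (fun y : E5 => ((zco 4 y : ℝ) : ℂ)) = fun _ => (0 : ℂ) := by
      funext y; simp [zco]
    show pd 4 (fun y => ((zco 4 y : ℝ) : ℂ)) x = 0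
    rw [e]; exact pd_const 0 4 x

theorem zf_ibp {f g : E5 → ℂ} (hf : Sm f) (hg : Tst g) (i : Fin 5) :
    ∫ x, Zf i f x * g x = -∫ x, f x * Zf i g x := by
  have hz : Sm (fun y => ((zco i y : ℝ) : ℂ)) := Sm.ofReal (contDiff_zco i)
  have h1 := ibp_pd hf hg i
  have h2 := Wk_ibp4 hz (pd4z i) hf hg
  have e1 : ∀ x, Zf i f x * g x = pd i f x * g x + ((zco i x : ℝ) : ℂ) * pd 4 f x * g x := by
    intro x; unfold Zf; ring
  have e2 : ∀ x, f x * Zf i g x = f x * pd i g x + f x * (((zco i x : ℝ) : ℂ) * pd 4 g x) := by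
    intro x; unfold Zf; ring
  simp only [e1, e2]
  rw [integral_add (Tst.mul_left (hf.pd i) hg).integrable
      (Tst.mul_left (hz.mul (hf.pd 4)) hg).integrable,
    integral_add (Tst.mul_left hf (hg.pd i)).integrable
      (Tst.mul_left hf (Tst.mul_left hz (hg.pd 4))).integrable, h1, h2]
  ring

theorem cg {f f' : E5 → ℂ} (h : f =ᵐ[volume] f') (ψ : E5 → ℂ) :
    ∫ x, f x * ψ x = ∫ x, f' x * ψ x := by
  refine integral_congr_ae ?_
  filter_upwards [h] with x hx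
  rw [hx]

theorem sm_Jf {f : E5 → ℂ} (hf : Sm f) (k : Fin 6) : Sm (Jf f k) := by
  unfold Jf
  split_ifs
  · exact hf
  · exact hf.L smS_a0 0
  · exact hf.L smS_a0 1
  · exact hf.Lb smS_a0 0
  · exact hf.Lb smS_a0 1
  · exact hf.pd 4

theorem smul_mem (r : ℝ) {v : HH} (hv : v ∈ EE) : r • v ∈ EE := by
  have : r • v = (r : ℂ) • v := by
    ext1 p
    show r • (v p) = (r : ℂ) • (v p)
    apply Lp.ext
    have h1 := Lp.coeFn_smul r (v p)
    have h2 := Lp.coeFn_smul (r : ℂ) (v p)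
    filter_upwards [h1, h2] with x h1 h2
    rw [h1, h2]
    simp [Complex.real_smul]
  rw [this]
  exact EE.smul_mem _ hv

/-- the derivative of the orbit -/
def Vd (V : HH) (i : Fin 5) : HH := fderiv ℝ (fun h => TH h V) 0 (e5 i)

theorem hasFD {V : HH} (hV : SVH V) : HasFDerivAt (fun h => TH h V)
    (fderiv ℝ (fun h => TH h V) 0) 0 :=
  ((hV.differentiable (by simp)) 0).hasFDerivAt

theorem Vd_mem (h5 : S_EEb) {V : HH} (hVE : V ∈ EE) (hV : SVH V) (i : Fin 5) : Vd V i ∈ EE := by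
  obtain ⟨-, -, hT, -, hcl⟩ := h5
  have hl : HasDerivAt (fun s : ℝ => TH (s • e5 i) V) (Vd V i) 0 := by
    have h1 : HasDerivAt (fun s : ℝ => s • e5 i) (e5 i) 0 := by
      have := (hasDerivAt_id (0 : ℝ)).smul_const (e5 i)
      simpa using this
    have h2 : HasFDerivAt (fun h => TH h V) (fderiv ℝ (fun h => TH h V) 0)
        ((0 : ℝ) • e5 i) := by
      rw [zero_smul]; exact hasFD hV
    exact h2.comp_hasDerivAt (0 : ℝ) h1
  have ht := hl.tendsto_slope_zero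
  refine hcl.mem_of_tendsto ht (Eventually.of_forall fun t => ?_)
  exact smul_mem _ (EE.sub_mem (hT _ V hVE) (hT _ V hVE))

theorem Vd_apply {V : HH} (hV : SVH V) (i : Fin 5) (p : Fin 2 × Fin 6) :
    (Vd V i) p = fderiv ℝ (fun h => Tt h (V p)) 0 (e5 i) := by
  have h1 := ((PiLp.proj (𝕜 := ℝ) 2 (fun _ : Fin 2 × Fin 6 => H2) p).hasFDerivAt
    (x := TH 0 V)).comp (0 : E5) (hasFD hV)
  have h2 : HasFDerivAt (fun h => Tt h (V p))
      ((PiLp.proj (𝕜 := ℝ) 2 (fun _ : Fin 2 × Fin 6 => H2) p).comp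
        (fderiv ℝ (fun h => TH h V) 0)) 0 := h1
  rw [h2.fderiv]
  rfl

end Stpx

open Stpx

theorem pStp (h1 : S_FFb) (h2 : S_Rep) (h3 : S_Wk) (h4 : S_AE) (h5 : S_EEb) (h6 : S_SVZ) :
    S_Stp := by
  intro V hV hSV f hf hVf
  have hSVp : ∀ p, SV (V p) := (h1.2.2 V).1 hSV
  have hJ : ∀ p, ((V p : H2) : E5 → ℂ) =ᵐ[volume] Jf (f p.1) p.2 := by
    rintro ⟨j, k⟩
    by_cases hk : k = 0
    · subst hk; exact hVf j
    · obtain ⟨g, hg, hgu⟩ := h2 (V (j, k)) (hSVp _)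
      have e : g = Jf (f j) k := by
        refine h4.2 g _ hg.cont (sm_Jf (hf j) k).cont ?_
        intro ψ hψ
        rw [← cg hgu ψ, h3 V hV j k hk ψ hψ, Wk_Jf (hf j) hψ k hk, cg (hVf j)]
      rw [← e]; exact hgu
  have hM : ∀ (j : Fin 2) (k : Fin 6), MemLp (Jf (f j) k) 2 volume := fun j k =>
    (memLp_congr_ae (hJ (j, k))).1 (Lp.memLp (V (j, k)))
  refine ⟨fun j => ⟨hf j, hM j 0, ?_, ?_, hM j 5⟩, hJ, ?_⟩
  · intro l
    fin_cases l
    · exact hM j 1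
    · exact hM j 2
  · intro l
    fin_cases l
    · exact hM j 3
    · exact hM j 4
  · intro i
    refine ⟨Vd V i, Vd_mem h5 hV hSV i, ?_, ?_⟩
    · rw [h1.2.2]
      intro p
      rw [Vd_apply hSV]
      exact (h6 (V p) (hSVp p) i).1
    · intro j
      refine h4.1 _ _ (li _) ((hf j).Zf i).cont.locallyIntegrable ?_
      intro ψ hψ
      rw [Vd_apply hSV, (h6 (V (j, 0)) (hSVp _) i).2 ψ hψ, cg (hVf j), zf_ibp (hf j) hψ]

end Pool.Agent.CR5.C
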