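import Pool.Agent.Lib.CR5.SpecC

/-!
# CR5, block C: Taylor estimate for the orbit of a test function
-/

open MeasureTheory Set Filter Topology
open scoped ENNReal ComplexConjugate

noncomputable section

namespace Pool.Agent.CR5.C

private theorem Tay_e4 : ‖e5 4‖ = 1 := by simp [e5]

private theorem Tay_om (k x : E5) : |om k x| ≤ 4 * ‖k‖ * ‖x‖ := by
  have h : ∀ (y : E5) (i : Fin 5), |y i| ≤ ‖y‖ := fun y i => by
    have := PiLp.norm_apply_le y i
    rwa [Real.norm_eq_abs] at this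
  have hp : ∀ i j : Fin 5, |k i * x j| ≤ ‖k‖ * ‖x‖ := fun i j => by
    rw [abs_mul]
    exact mul_le_mul (h k i) (h x j) (abs_nonneg _) (norm_nonneg _)
  have a := abs_le.1 (hp 1 0)
  have b := abs_le.1 (hp 0 1)
  have c := abs_le.1 (hp 3 2)
  have d := abs_le.1 (hp 2 3)
  unfold om
  rw [abs_le]
  constructor
  · linarith [a.1, b.2, c.1, d.2]
  · linarith [a.2, b.1, c.2, d.1]

private theorem Tay_lh (k x : E5) : ‖lh k x - x‖ ≤ (1 + 8 * ‖x‖) * ‖k‖ := by
  have e : lh k x - x = k + (2 * om k x) • e5 4 := by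
    simp only [lh]; abel
  rw [e]
  refine (norm_add_le _ _).trans ?_
  rw [norm_smul, Tay_e4, mul_one, Real.norm_eq_abs, abs_mul, abs_two]
  have := Tay_om k x
  nlinarith

private theorem Tay_taylor {f : E5 → ℂ} (hf : Tst f) : ∃ M0 : ℝ, 0 ≤ M0 ∧
    ∀ x v : E5, ‖f (x + v) - f x - fderiv ℝ f x v‖ ≤ M0 * ‖v‖ ^ 2 := by
  have h1 : ContDiff ℝ (⊤ : ℕ∞) (fderiv ℝ f) := ContDiff.fderiv_right hf.sm (by simp)
  obtain ⟨C, hC⟩ := ContDiff.lipschitzWith_of_hasCompactSupport (𝕂 := ℝ)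
    (hf.cs.fderiv (𝕜 := ℝ)) h1 (by norm_num)
  refine ⟨C, C.2, fun x v => ?_⟩
  have h2 := Convex.norm_image_sub_le_of_norm_hasFDerivWithin_le' (𝕜 := ℝ) (f := f)
    (f' := fderiv ℝ f) (s := Metric.closedBall x ‖v‖) (φ := fderiv ℝ f x) (C := C * ‖v‖)
    (x := x) (y := x + v)
    (fun y _ => (hf.sm.diffAt y).hasFDerivAt.hasFDerivWithinAt) (fun y hy => ?_)
    (convex_closedBall x ‖v‖) (Metric.mem_closedBall_self (norm_nonneg v)) (by simp)
  · rw [add_sub_cancel_left] at h2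
    calc _ ≤ (C : ℝ) * ‖v‖ * ‖v‖ := h2
      _ = _ := by ring
  · have h3 := hC.dist_le_mul y x
    rw [dist_eq_norm] at h3
    exact h3.trans (mul_le_mul_of_nonneg_left hy C.2)

private theorem Tay_fd {f : E5 → ℂ} (k x : E5) :
    fderiv ℝ f x (lh k x - x) = ∑ i, (k i : ℂ) * Zf i f x := by
  have e : lh k x - x = k + (2 * om k x) • e5 4 := by
    simp only [lh]; abel
  have ek : k = ∑ i, k i • e5 i := by
    ext j
    rw [WithLp.ofLp_sum, Finset.sum_apply]
    simp only [PiLp.smul_apply, smul_eq_mul, e5_apply]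
    simp
  have h1 : fderiv ℝ f x k = ∑ i, (k i : ℂ) * pd i f x := by
    conv_lhs => rw [ek]
    rw [map_sum]
    refine Finset.sum_congr rfl fun i _ => ?_
    rw [map_smul, Complex.real_smul]
    rfl
  have h2 : ((2 * om k x : ℝ) : ℂ) = ∑ i, (k i : ℂ) * (zco i x : ℂ) := by
    simp only [Fin.sum_univ_five, zco_eq]
    simp [om, e5_apply]
    ring
  rw [e, map_add, map_smul, h1, Complex.real_smul, h2, Finset.sum_mul,
    ← Finset.sum_add_distrib]
  refine Finset.sum_congr rfl fun i _ => ?_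
  show _ = (k i : ℂ) * (pd i f x + (zco i x : ℂ) * pd 4 f x)
  have : fderiv ℝ f x (e5 4) = pd 4 f x := rfl
  rw [this]
  ring

theorem pTay : S_Tay := by
  intro f hf
  obtain ⟨M0, hM0, hT⟩ := Tay_taylor hf
  obtain ⟨r, hr1, hr⟩ := hf.cs.isCompact.isBounded.subset_ball_lt 1 (0 : E5)
  have hz : ∀ y : E5, r ≤ ‖y‖ → y ∉ tsupport f := fun y hy hm => by
    have := hr hm
    rw [mem_ball_zero_iff] at this
    linarith
  refine ⟨M0 * (1 + 8 * (10 * r + 1)) ^ 2, 10 * r + 1, by positivity, by linarith,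
    fun k x hk => ?_⟩
  have far : 10 * r + 1 ≤ ‖x‖ → f (lh k x) = 0 ∧ f x = 0 ∧ ∀ i, Zf i f x = 0 := by
    intro hx
    have hx' : x ∉ tsupport f := hz x (by linarith)
    refine ⟨?_, image_eq_zero_of_notMem_tsupport hx', fun i => ?_⟩
    · refine image_eq_zero_of_notMem_tsupport (hz _ ?_)
      by_contra hlt
      rw [not_le] at hlt
      have h1 := Tay_lh (-k) (lh k x)
      rw [lh_neg_lh, norm_neg] at h1
      have h2 : ‖x‖ ≤ ‖x - lh k x‖ + ‖lh k x‖ := by
        have := norm_add_le (x - lh k x) (lh k x)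
        rwa [sub_add_cancel] at this
      have h3 : (1 + 8 * ‖lh k x‖) * ‖k‖ ≤ (1 + 8 * r) * 1 :=
        mul_le_mul (by linarith) hk (norm_nonneg _) (by positivity)
      linarith
    · have : fderiv ℝ f x = 0 := fderiv_of_notMem_tsupport ℝ hx'
      simp [Zf, pd, this]
  refine ⟨?_, far⟩
  by_cases hx : 10 * r + 1 ≤ ‖x‖
  · obtain ⟨a, b, c⟩ := far hx
    rw [a, b]
    simp only [c, mul_zero, Finset.sum_const_zero, sub_zero, norm_zero]
    positivity
  · rw [not_le] at hx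
    have h1 := hT x (lh k x - x)
    rw [add_sub_cancel, Tay_fd] at h1
    have h2 : ‖lh k x - x‖ ≤ (1 + 8 * (10 * r + 1)) * ‖k‖ :=
      (Tay_lh k x).trans (mul_le_mul_of_nonneg_right (by linarith) (norm_nonneg _))
    refine h1.trans ?_
    calc M0 * ‖lh k x - x‖ ^ 2 ≤ M0 * ((1 + 8 * (10 * r + 1)) * ‖k‖) ^ 2 :=
          mul_le_mul_of_nonneg_left (pow_le_pow_left₀ (norm_nonneg _) h2 2) hM0
      _ = _ := by ring

end Pool.Agent.CR5.C
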