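import Pool.Agent.Lib.CR5.SpecC

/-!
# CR5, block C: weak relations on `EE`
-/

open MeasureTheory Set Filter Topology
open scoped ENNReal ComplexConjugate

noncomputable section

namespace Pool.Agent.CR5.C

/-- the pairing with a test function is an inner product -/
theorem Wk_inner {φ : E5 → ℂ} (hφ : Tst φ) (v : H2) :
    ∫ x, v x * φ x = inner ℂ (cl (fun x => conj (φ x))) v := by
  rw [L2.inner_def]
  refine integral_congr_ae ?_
  filter_upwards [cl_coe hφ.conj.memLp] with x hx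
  rw [RCLike.inner_apply, hx, Complex.conj_conj]

theorem Wk_cont {φ : E5 → ℂ} (hφ : Tst φ) (p : Fin 2 × Fin 6) :
    Continuous fun V : HH => ∫ x, (V p : H2) x * φ x := by
  have h : (fun V : HH => ∫ x, (V p : H2) x * φ x)
      = fun V : HH => inner ℂ (cl (fun x => conj (φ x))) (V p : H2) := by
    funext V
    exact Wk_inner hφ (V p)
  rw [h]
  exact continuous_const.inner (PiLp.continuous_apply 2 (fun _ : Fin 2 × Fin 6 => H2) p)

theorem Wk_pd4_zc (j : Fin 2) (x : E5) : pd 4 (zc j) x = 0 := by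
  have hc : ∀ i : Fin 5, i ≠ 4 → ∀ y : E5, pd 4 (fun z => (z i : ℂ)) y = 0 := by
    intro i hi y
    unfold pd
    have h : HasFDerivAt (fun y : E5 => ((y i : ℝ) : ℂ))
        (Complex.ofRealCLM.comp (EuclideanSpace.proj i : E5 →L[ℝ] ℝ)) y :=
      Complex.ofRealCLM.hasFDerivAt.comp y (EuclideanSpace.proj i : E5 →L[ℝ] ℝ).hasFDerivAt
    rw [h.fderiv]
    simp [e5, hi]
  unfold zc
  by_cases h : j = 0
  · simp only [h, if_true]
    rw [pd_add (Sm.coord 0) ((Sm.const _).mul (Sm.coord 1)), pd_const_mul (Sm.coord 1),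
      hc 0 (by decide), hc 1 (by decide)]
    ring
  · simp only [h, if_false]
    rw [pd_add (Sm.coord 2) ((Sm.const _).mul (Sm.coord 3)), pd_const_mul (Sm.coord 3),
      hc 2 (by decide), hc 3 (by decide)]
    ring

theorem Wk_L0 (j : Fin 2) (f : E5 → ℂ) (x : E5) :
    L a0 j f x = db j.castSucc f x + -(Complex.I * zc j x) * pd 4 f x := by
  simp only [L, a0, Fin.sum_univ_three, dz_two]
  simp

theorem Wk_Lb0 (j : Fin 2) (f : E5 → ℂ) (x : E5) :
    Lb a0 j f x = dz j.castSucc f x + conj (-(Complex.I * zc j x)) * pd 4 f x := by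
  simp only [Lb, a0, Fin.sum_univ_three, db_two]
  simp

/-- integration by parts for the last term -/
theorem Wk_ibp4 {c f g : E5 → ℂ} (hc : Sm c) (hc4 : ∀ x, pd 4 c x = 0) (hf : Sm f) (hg : Tst g) :
    ∫ x, c x * pd 4 f x * g x = -∫ x, f x * (c x * pd 4 g x) := by
  have h := ibp_pd hf (Tst.mul_left hc hg) 4
  have e1 : ∀ x, c x * pd 4 f x * g x = pd 4 f x * (c x * g x) := fun x => by ring
  have e2 : ∀ x, f x * (c x * pd 4 g x) = f x * pd 4 (fun y => c y * g y) x := by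
    intro x
    rw [pd_mul hc hg.sm, hc4]
    ring
  simp only [e1, e2]
  exact h

theorem Wk_L {f g : E5 → ℂ} (hf : Sm f) (hg : Tst g) (j : Fin 2) :
    ∫ x, L a0 j f x * g x = -∫ x, f x * L a0 j g x := by
  have hc : Sm fun x => -(Complex.I * zc j x) := ((Sm.const _).mul (Sm.zc j)).neg
  have hc4 : ∀ x, pd 4 (fun x => -(Complex.I * zc j x)) x = 0 := by
    intro x
    rw [pd_neg, pd_const_mul (Sm.zc j), Wk_pd4_zc]
    ring
  have e1 : ∀ x, L a0 j f x * g x
      = db j.castSucc f x * g x + (-(Complex.I * zc j x)) * pd 4 f x * g x := by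
    intro x; rw [Wk_L0]; ring
  have e2 : ∀ x, f x * L a0 j g x
      = f x * db j.castSucc g x + f x * ((-(Complex.I * zc j x)) * pd 4 g x) := by
    intro x; rw [Wk_L0]; ring
  simp only [e1, e2]
  rw [integral_add (Tst.mul_left (hf.db _) hg).integrable
      (Tst.mul_left (hc.mul (hf.pd 4)) hg).integrable,
    integral_add (Tst.mul_left hf (hg.db _)).integrable
      (Tst.mul_left hf (Tst.mul_left hc (hg.pd 4))).integrable,
    ibp_db hf hg, Wk_ibp4 hc hc4 hf hg]
  ring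

theorem Wk_Lb {f g : E5 → ℂ} (hf : Sm f) (hg : Tst g) (j : Fin 2) :
    ∫ x, Lb a0 j f x * g x = -∫ x, f x * Lb a0 j g x := by
  have hc : Sm fun x => conj (-(Complex.I * zc j x)) := ((Sm.const _).mul (Sm.zc j)).neg.conj
  have hc4 : ∀ x, pd 4 (fun x => conj (-(Complex.I * zc j x))) x = 0 := by
    intro x
    rw [pd_conj ((Sm.const _).mul (Sm.zc j)).neg, pd_neg, pd_const_mul (Sm.zc j), Wk_pd4_zc]
    simp
  have e1 : ∀ x, Lb a0 j f x * g x
      = dz j.castSucc f x * g x + conj (-(Complex.I * zc j x)) * pd 4 f x * g x := by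
    intro x; rw [Wk_Lb0]; ring
  have e2 : ∀ x, f x * Lb a0 j g x
      = f x * dz j.castSucc g x + f x * (conj (-(Complex.I * zc j x)) * pd 4 g x) := by
    intro x; rw [Wk_Lb0]; ring
  simp only [e1, e2]
  rw [integral_add (Tst.mul_left (hf.dz _) hg).integrable
      (Tst.mul_left (hc.mul (hf.pd 4)) hg).integrable,
    integral_add (Tst.mul_left hf (hg.dz _)).integrable
      (Tst.mul_left hf (Tst.mul_left hc (hg.pd 4))).integrable,
    ibp_dz hf hg, Wk_ibp4 hc hc4 hf hg]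
  ring

theorem Wk_cases (k : Fin 6) (hk : k ≠ 0) : k = 1 ∨ k = 2 ∨ k = 3 ∨ k = 4 ∨ k = 5 := by
  revert hk
  fin_cases k <;> simp

/-- integration by parts for the components -/
theorem Wk_Jf {f g : E5 → ℂ} (hf : Sm f) (hg : Tst g) (k : Fin 6) (hk : k ≠ 0) :
    ∫ x, Jf f k x * g x = -∫ x, f x * Jf g k x := by
  rcases Wk_cases k hk with rfl | rfl | rfl | rfl | rfl
  · exact Wk_L hf hg 0
  · exact Wk_L hf hg 1
  · exact Wk_Lb hf hg 0
  · exact Wk_Lb hf hg 1
  · exact ibp_pd hf hg 4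

theorem Wk_Tst {g : E5 → ℂ} (hg : Tst g) (k : Fin 6) (hk : k ≠ 0) : Tst (Jf g k) := by
  rcases Wk_cases k hk with rfl | rfl | rfl | rfl | rfl
  · exact hg.L smS_a0 0
  · exact hg.L smS_a0 1
  · exact hg.Lb smS_a0 0
  · exact hg.Lb smS_a0 1
  · exact hg.pd 4

theorem pWk (h1 : S_EEb) : S_Wk := by
  obtain ⟨-, hcl, -, hJ, -⟩ := h1
  intro V hV j k hk ψ hψ
  have hψk : Tst (Jf ψ k) := Wk_Tst hψ k hk
  refine hcl (fun V => ∫ x, (V (j, k) : H2) x * ψ x = -∫ x, (V (j, 0) : H2) x * Jf ψ k x) ?_ ?_ V hV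
  · exact isClosed_eq (Wk_cont hψ (j, k)) (Wk_cont hψk (j, 0)).neg
  · intro w hw
    have e1 : ∫ x, (JJ w (j, k) : H2) x * ψ x = ∫ x, Jf (w j) k x * ψ x := by
      refine integral_congr_ae ?_
      filter_upwards [hJ w hw (j, k)] with x hx
      rw [hx]
    have e2 : ∫ x, (JJ w (j, 0) : H2) x * Jf ψ k x = ∫ x, w j x * Jf ψ k x := by
      refine integral_congr_ae ?_
      filter_upwards [hJ w hw (j, 0)] with x hx
      rw [hx]
      rfl
    show ∫ x, (JJ w (j, k) : H2) x * ψ x = -∫ x, (JJ w (j, 0) : H2) x * Jf ψ k x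
    rw [e1, e2]
    exact Wk_Jf (hw j).sm hψ k hk

end Pool.Agent.CR5.C
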