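import Pool.Agent.Lib.CR5.Basic2

/-!
# CR5, block C: definitions

The left translations `lh h` of the Heisenberg group act on `L²(ℝ⁵)` by the isometries `Tt h`;
`Mu c` is the multiplication by the bounded function `c`; `Jf f` is the list
`f, L⁰ f, L̄⁰ f, ∂f/∂t`; `HH` is the Hilbert space of twelve square integrable functions.
-/

open MeasureTheory Set Filter Topology
open scoped ENNReal ComplexConjugate

noncomputable section

namespace Pool.Agent.CR5

/-! ### Translations -/

/-- The symplectic form `ω(k, x) = k₁x₀ - k₀x₁ + k₃x₂ - k₂x₃`. -/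
def om (k x : E5) : ℝ := k 1 * x 0 - k 0 * x 1 + k 3 * x 2 - k 2 * x 3

/-- Left translation by `h` in the Heisenberg group. -/
def lh (h x : E5) : E5 := x + h + (2 * om h x) • e5 4

theorem e5_apply (i j : Fin 5) : e5 i j = if j = i then 1 else 0 := by
  simp [e5]

theorem lh_four (h x : E5) : lh h x 4 = x 4 + h 4 + 2 * om h x := by
  simp [lh, e5_apply]

theorem lh_ne (h x : E5) {i : Fin 5} (hi : i ≠ 4) : lh h x i = x i + h i := by
  simp [lh, e5_apply, hi]

theorem om_add_left (h k x : E5) : om (h + k) x = om h x + om k x := by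
  simp [om]; ring

theorem om_add_right (h x y : E5) : om h (x + y) = om h x + om h y := by
  simp [om]; ring

theorem om_smul_left (r : ℝ) (h x : E5) : om (r • h) x = r * om h x := by
  simp [om]; ring

theorem om_smul_right (r : ℝ) (h x : E5) : om h (r • x) = r * om h x := by
  simp [om]; ring

theorem om_neg_left (h x : E5) : om (-h) x = -om h x := by
  simp [om]; ring

theorem om_neg_right (h x : E5) : om h (-x) = -om h x := by
  simp [om]; ring

theorem om_self (h : E5) : om h h = 0 := by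
  simp [om]; ring

theorem om_e4_left (x : E5) : om (e5 4) x = 0 := by
  simp [om, e5_apply]

theorem om_e4_right (h : E5) : om h (e5 4) = 0 := by
  simp [om, e5_apply]

theorem zco_eq (k : Fin 5) (x : E5) : zco k x = 2 * om (e5 k) x := by
  fin_cases k <;> simp [zco, om, e5_apply]

theorem lh_zero_left (x : E5) : lh 0 x = x := by
  simp [lh, om]

theorem lh_zero_right (h : E5) : lh h 0 = h := by
  simp [lh, om]

/-- Composition law. -/
theorem lh_lh (h k x : E5) : lh h (lh k x) = lh (lh h k) x := by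
  simp only [lh, om_add_right, om_add_left, om_smul_right, om_smul_left, om_e4_left, om_e4_right]
  module

theorem lh_neg_lh (h x : E5) : lh (-h) (lh h x) = x := by
  rw [lh_lh]
  have : lh (-h) h = 0 := by simp [lh, om_neg_left, om_self]
  rw [this, lh_zero_left]

theorem lh_lh_neg (h x : E5) : lh h (lh (-h) x) = x := by
  have := lh_neg_lh (-h) x
  rwa [neg_neg] at this

/-- The linear form `ω(h, ·)`. -/
def omL (h : E5) : E5 →L[ℝ] ℝ :=
  h 1 • (EuclideanSpace.proj 0 : E5 →L[ℝ] ℝ) - h 0 • (EuclideanSpace.proj 1 : E5 →L[ℝ] ℝ)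
    + h 3 • (EuclideanSpace.proj 2 : E5 →L[ℝ] ℝ) - h 2 • (EuclideanSpace.proj 3 : E5 →L[ℝ] ℝ)

theorem omL_apply (h x : E5) : omL h x = om h x := by
  simp [omL, om]

theorem contDiff_lh_right (h : E5) : ContDiff ℝ (⊤ : ℕ∞) (lh h) := by
  have : lh h = fun x => x + h + (2 * omL h x) • e5 4 := by
    funext x; rw [omL_apply]; rfl
  rw [this]
  exact (contDiff_id.add contDiff_const).add
    ((contDiff_const.mul (omL h).contDiff).smul contDiff_const)

/-- `lh` is smooth in both variables. -/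
theorem contDiff_lh : ContDiff ℝ (⊤ : ℕ∞) (fun p : E5 × E5 => lh p.1 p.2) := by
  unfold lh om
  have h1 : ∀ i : Fin 5, ContDiff ℝ (⊤ : ℕ∞) (fun p : E5 × E5 => p.1 i) := fun i =>
    (contDiff_coord i).comp contDiff_fst
  have h2 : ∀ i : Fin 5, ContDiff ℝ (⊤ : ℕ∞) (fun p : E5 × E5 => p.2 i) := fun i =>
    (contDiff_coord i).comp contDiff_snd
  exact (contDiff_snd.add contDiff_fst).add ((contDiff_const.mul
    (((((h1 1).mul (h2 0)).sub ((h1 0).mul (h2 1))).add ((h1 3).mul (h2 2))).sub
      ((h1 2).mul (h2 3)))).smul contDiff_const)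

theorem continuous_lh (h : E5) : Continuous (lh h) := (contDiff_lh_right h).continuous

/-- The translations preserve the Lebesgue measure. -/
theorem mp_lh (h : E5) : MeasurePreserving (lh h) (volume : Measure E5) volume := by
  set f : E5 →ₗ[ℝ] E5 := LinearMap.transvection ((2 : ℝ) • (omL h : E5 →ₗ[ℝ] ℝ)) (e5 4) with hf
  have hfa : ∀ x, f x = x + (2 * om h x) • e5 4 := by
    intro x
    rw [hf, LinearMap.transvection.apply]
    simp [omL_apply]
  have hdet : LinearMap.det f = 1 := by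
    rw [hf, LinearMap.transvection.det]
    have : omL h (e5 4) = 0 := by rw [omL_apply, om_e4_right]
    simp [this]
  have h1 : MeasurePreserving f (volume : Measure E5) volume := by
    refine ⟨f.continuous_of_finiteDimensional.measurable, ?_⟩
    rw [Measure.map_linearMap_addHaar_eq_smul_addHaar volume (by rw [hdet]; exact one_ne_zero),
      hdet]
    simp
  have h2 : MeasurePreserving (fun x : E5 => x + h) (volume : Measure E5) volume :=
    measurePreserving_add_right volume h
  have h3 : lh h = (fun x : E5 => x + h) ∘ f := by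
    funext x
    simp only [Function.comp_apply, hfa, lh]
    module
  rw [h3]
  exact h2.comp h1

/-- The space `L²(ℝ⁵)`. -/
abbrev H2 := Lp ℂ 2 (volume : Measure E5)

/-- The isometry `u ↦ u ∘ lh h`. -/
def Tt (h : E5) : H2 →ₗᵢ[ℂ] H2 := Lp.compMeasurePreservingₗᵢ ℂ (lh h) (mp_lh h)

theorem Tt_coe (h : E5) (u : H2) : (Tt h u : E5 → ℂ) =ᵐ[volume] fun x => u (lh h x) :=
  Lp.coeFn_compMeasurePreserving u (mp_lh h)

theorem Tt_zero (u : H2) : Tt 0 u = u := by
  apply Lp.ext
  filter_upwards [Tt_coe 0 u] with x hx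
  rw [hx, lh_zero_left]

theorem Tt_Tt (h k : E5) (u : H2) : Tt h (Tt k u) = Tt (lh k h) u := by
  apply Lp.ext
  have h1 := Tt_coe h (Tt k u)
  have h2 := (mp_lh h).quasiMeasurePreserving.ae (Tt_coe k u)
  have h3 := Tt_coe (lh k h) u
  filter_upwards [h1, h2, h3] with x h1 h2 h3
  rw [h1, h2, h3, lh_lh]

theorem Tt_neg_Tt (h : E5) (u : H2) : Tt (-h) (Tt h u) = u := by
  rw [Tt_Tt]
  have : lh h (-h) = 0 := by simp [lh, om_neg_right, om_self]
  rw [this, Tt_zero]

theorem Tt_Tt_neg (h : E5) (u : H2) : Tt h (Tt (-h) u) = u := by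
  have := Tt_neg_Tt (-h) u
  rwa [neg_neg] at this

open scoped Classical in
/-- The class in `L²` of a square integrable function (zero if it is not square integrable). -/
def cl (f : E5 → ℂ) : H2 := if h : MemLp f 2 volume then h.toLp f else 0

theorem cl_coe {f : E5 → ℂ} (h : MemLp f 2 volume) : (cl f : E5 → ℂ) =ᵐ[volume] f := by
  rw [cl, dif_pos h]
  exact h.coeFn_toLp

theorem Tt_cl {f : E5 → ℂ} (h : MemLp f 2 volume) (k : E5) :
    Tt k (cl f) = cl fun x => f (lh k x) := by
  have h' : MemLp (fun x => f (lh k x)) 2 volume := h.comp_measurePreserving (mp_lh k)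
  rw [cl, dif_pos h, cl, dif_pos h']
  rfl

/-! ### Multiplication operators -/

/-- Bounded continuous functions. -/
def Bc (c : E5 → ℂ) : Prop := Continuous c ∧ ∃ C, ∀ x, ‖c x‖ ≤ C

theorem Bc.memLp {c : E5 → ℂ} (h : Bc c) : MemLp c ∞ volume := by
  obtain ⟨h1, C, hC⟩ := h
  exact memLp_top_of_bound h1.aestronglyMeasurable C (Filter.Eventually.of_forall hC)

open scoped Classical in
/-- Multiplication by a bounded function as an operator on `L²`. -/
def Mu (c : E5 → ℂ) : H2 →L[ℂ] H2 :=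
  if h : Bc c then
    (ContinuousLinearMap.mul ℂ ℂ).holderL (volume : Measure E5) ∞ 2 2 (h.memLp.toLp c)
  else 0

theorem Mu_coe {c : E5 → ℂ} (h : Bc c) (u : H2) :
    (Mu c u : E5 → ℂ) =ᵐ[volume] fun x => c x * u x := by
  rw [Mu, dif_pos h]
  have h1 := (ContinuousLinearMap.mul ℂ ℂ).coeFn_holder (r := 2) (h.memLp.toLp c) u
  have h2 := h.memLp.coeFn_toLp
  filter_upwards [h1, h2] with x h1 h2
  rw [ContinuousLinearMap.holderL_apply_apply, h1, h2]
  rfl

/-! ### The twelve components -/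

/-- The list `f, L⁰₁ f, L⁰₂ f, L̄⁰₁ f, L̄⁰₂ f, ∂f/∂t`. -/
def Jf (f : E5 → ℂ) (k : Fin 6) : E5 → ℂ :=
  if k = 0 then f else if k = 1 then L a0 0 f else if k = 2 then L a0 1 f
  else if k = 3 then Lb a0 0 f else if k = 4 then Lb a0 1 f else pd 4 f

/-- The Hilbert space of the twelve components. -/
abbrev HH := PiLp 2 (fun _ : Fin 2 × Fin 6 => H2)

/-- The map `J` for pairs of functions. -/
def JJ (w : F2) : HH := WithLp.toLp 2 fun p => cl (Jf (w p.1) p.2)

/-- Translations act on each component (isometry of a finite product). -/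
def TP (ι : Type) [Fintype ι] (h : E5) :
    PiLp 2 (fun _ : ι => H2) →ₗᵢ[ℂ] PiLp 2 (fun _ : ι => H2) where
  toFun u := WithLp.toLp 2 fun p => Tt h (u p)
  map_add' u v := by
    ext1 p
    simp
  map_smul' c u := by
    ext1 p
    simp
  norm_map' u := by
    simp [PiLp.norm_eq_of_L2]

theorem TP_apply (ι : Type) [Fintype ι] (h : E5) (u : PiLp 2 (fun _ : ι => H2)) (p : ι) :
    TP ι h u p = Tt h (u p) := rfl

theorem TP_zero (ι : Type) [Fintype ι] (u : PiLp 2 (fun _ : ι => H2)) : TP ι 0 u = u := by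
  ext1 p
  rw [TP_apply, Tt_zero]

theorem TP_TP (ι : Type) [Fintype ι] (h k : E5) (u : PiLp 2 (fun _ : ι => H2)) :
    TP ι h (TP ι k u) = TP ι (lh k h) u := by
  ext1 p
  simp only [TP_apply, Tt_Tt]

/-- Translations on `HH`. -/
abbrev TH (h : E5) : HH →ₗᵢ[ℂ] HH := TP (Fin 2 × Fin 6) h

/-- The target space of the form: `D0s`, `D1` and the four regularising components. -/
abbrev HK := PiLp 2 (fun _ : Fin 6 => H2)

/-- Constant plus a test function. -/
def CT (c : E5 → ℂ) : Prop := ∃ c0 : ℂ, Tst fun x => c x - c0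

/-- The coefficient of `∂/∂t` in the expansion of `L a j`. -/
def tau (a : Str) (j : Fin 2) : E5 → ℂ := fun x =>
  (a j 2 x - a0 j 2 x) - a j 0 x * conj (a0 0 2 x) - a j 1 x * conj (a0 1 2 x)

/-- Coefficients of `L a j` in terms of `Jf`. -/
def C.cL (a : Str) (j : Fin 2) (k : Fin 6) : E5 → ℂ := fun x =>
  if k = 0 then 0 else if k = 1 then (if j = 0 then 1 else 0)
  else if k = 2 then (if j = 1 then 1 else 0) else if k = 3 then a j 0 x
  else if k = 4 then a j 1 x else tau a j x

/-- Coefficients of `Ls a j` in terms of `Jf`. -/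
def C.cS (a : Str) (j : Fin 2) (k : Fin 6) : E5 → ℂ := fun x =>
  if k = 0 then -dv a j x else if k = 1 then -conj (a j 0 x)
  else if k = 2 then -conj (a j 1 x) else if k = 3 then (if j = 0 then -1 else 0)
  else if k = 4 then (if j = 1 then -1 else 0) else -conj (tau a j x)

/-- The operator with the coefficients `q`, translated by `h`. -/
def Sop (q : Fin 2 × Fin 6 → E5 → ℂ) (h : E5) : HH →L[ℂ] H2 :=
  ∑ p, (Mu fun x => q p (lh h x)).comp (PiLp.proj 2 (fun _ : Fin 2 × Fin 6 => H2) p)

/-- Coefficients of `D0s a`. -/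
def q0 (a : Str) (p : Fin 2 × Fin 6) : E5 → ℂ := C.cS a p.1 p.2

/-- Coefficients of `D1 a`. -/
def q1 (a : Str) (p : Fin 2 × Fin 6) : E5 → ℂ :=
  if p.1 = 0 then fun x => -C.cL a 1 p.2 x else C.cL a 0 p.2

/-- The components of the operator `SS a e h`: `D0s a`, `D1 a` (translated), and
`√e` times the components `w₀, w₁, ∂w₀/∂t, ∂w₁/∂t`. -/
def SSc (a : Str) (e : ℝ) (h : E5) (k : Fin 6) : HH →L[ℂ] H2 :=
  if k = 0 then Sop (q0 a) h else if k = 1 then Sop (q1 a) h
  else if k = 2 then (Real.sqrt e : ℂ) • PiLp.proj 2 (fun _ : Fin 2 × Fin 6 => H2) (0, 0)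
  else if k = 3 then (Real.sqrt e : ℂ) • PiLp.proj 2 (fun _ : Fin 2 × Fin 6 => H2) (1, 0)
  else if k = 4 then (Real.sqrt e : ℂ) • PiLp.proj 2 (fun _ : Fin 2 × Fin 6 => H2) (0, 5)
  else (Real.sqrt e : ℂ) • PiLp.proj 2 (fun _ : Fin 2 × Fin 6 => H2) (1, 5)

/-- The operator whose Gram form is the regularised form. -/
def SS (a : Str) (e : ℝ) (h : E5) : HH →L[ℂ] HK :=
  (PiLp.continuousLinearEquiv 2 ℂ (fun _ : Fin 6 => H2)).symm.toContinuousLinearMap.comp
    (ContinuousLinearMap.pi fun k => SSc a e h k)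

theorem SS_apply (a : Str) (e : ℝ) (h : E5) (u : HH) (k : Fin 6) :
    SS a e h u k = SSc a e h k u := rfl

/-- The right hand side. -/
def FF (Φ : F2) : HH := WithLp.toLp 2 fun p => if p.2 = 0 then cl (Φ p.1) else 0

/-- The closure of the image of the test pairs. -/
def EE : Submodule ℂ HH := (Submodule.span ℂ {u | ∃ w : F2, (∀ j, Tst (w j)) ∧ u = JJ w}).topologicalClosure

/-- Smooth vectors in `L²`. -/
def SV (u : H2) : Prop := ContDiff ℝ (⊤ : ℕ∞) fun h => Tt h u

/-- Smooth vectors in `HH`. -/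
def SVH (u : HH) : Prop := ContDiff ℝ (⊤ : ℕ∞) fun h => TH h u

end Pool.Agent.CR5
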