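import Pool.Agent.Lib.CR5.SpecC

/-!
# CR5, block C: assembly of `S_EX`
-/

open MeasureTheory Set Filter Topology
open scoped ENNReal ComplexConjugate FourierTransform

noncomputable section

namespace Pool.Agent.CR5.C

theorem pMainC : S_MainC := by
  intro hHil hSSb hLow hFFb hEEb hRep hStp hEqu
  obtain ⟨ε, hε, hLow⟩ := hLow
  refine ⟨ε, hε, ?_⟩
  intro a ha Φ hΦ e he he1
  obtain ⟨c, hc, hlow⟩ := hLow a ha e he he1
  obtain ⟨hS1, hS2, -⟩ := hSSb a 2 ε ha e he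
  obtain ⟨E1, E2, E3, E4, E5'⟩ := hEEb
  obtain ⟨U, hU, hUe, hUs⟩ := hHil HH HK EE E5' TH (TP (Fin 6)) (SS a e) (TP_zero _)
    (TP_TP _) E3 hS1 hS2 (FF Φ) (hFFb.1 Φ hΦ) c hc hlow
  have hcomp : ∀ p, SV (U p) := (hFFb.2.2 U).1 hUs
  choose w hw1 hw2 using fun j : Fin 2 => hRep (U (j, 0)) (hcomp (j, 0))
  have key : ∀ I : List (Fin 5), ∃ V ∈ EE, SVH V ∧
      ∀ j, ((V (j, 0) : H2) : E5 → ℂ) =ᵐ[volume] ZL I (w j) := by
    intro I
    induction I with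
    | nil => exact ⟨U, hU, hUs, hw2⟩
    | cons k I ih =>
      obtain ⟨V, hV, hVs, hVw⟩ := ih
      obtain ⟨-, -, h3⟩ := hStp V hV hVs (fun j => ZL I (w j)) (fun j => (hw1 j).ZL I) hVw
      exact h3 k
  refine ⟨w, fun j I => ?_, ?_⟩
  · obtain ⟨V, hV, hVs, hVw⟩ := key I
    exact (hStp V hV hVs (fun j => ZL I (w j)) (fun j => (hw1 j).ZL I) hVw).1 j
  · exact hEqu a 2 ε ha e he U hU w Φ hw1 hΦ (hStp U hU hUs w hw1 hw2).2.1 hUe

end Pool.Agent.CR5.C
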